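import Pool.Agent.Helper89.TQ.Ctx

set_option autoImplicit false
set_option linter.all false
set_option maxHeartbeats 0

namespace Pool.Agent.Helper43.TQ

open Pool.Agent.Helper89.TQ

theorem c0_11_13_23_k3 {n1 n2 n3 A1 A2 A3 B1 B2 B3 m11_1 m11_2 m11_3 m13_1 m13_2 m13_3 m22_1 m22_2 m22_3 m23_1 m23_2 m23_3 m33_1 m33_2 m33_3 : ℤ}
    (C : Ctx0 n1 n2 n3 A1 A2 A3 B1 B2 B3 m11_1 m11_2 m11_3 m13_1 m13_2 m13_3 m22_1 m22_2 m22_3 m23_1 m23_2 m23_3 m33_1 m33_2 m33_3)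
    (e0 : 0 < B1)
    (e1 : 0 < A1)
    (e2 : 0 < B3)
    (e3 : 0 < A2)
    (s1 : 3 * A1 + 0 * B1 ≤ m11_1 + m13_1 + m23_1)
    (s2 : 3 * A2 + 0 * B2 ≤ m11_2 + m13_2 + m23_2)
    (s3 : 3 * A3 + 0 * B3 ≤ m11_3 + m13_3 + m23_3) : False := by
  have h_a4 := C.a4
  have h_b1 := C.b1
  have h_b5 := C.b5
  have h_o0 := C.o0
  have h_o1 := C.o1
  have h_o2 := C.o2
  have h_f11_0 := C.f11_0
  have h_f11_1 := C.f11_1
  have h_f13_0 := C.f13_0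
  have h_f13_3 := C.f13_3
  have h_f13_4 := C.f13_4
  have h_f13_7 := C.f13_7
  have h_f23_0 := C.f23_0
  have h_f23_1 := C.f23_1
  have h_f23_5 := C.f23_5
  have d_f13_2 : (m13_1 + 1 ≤ A1 ∧ A1 ≤ m13_1 + 1) ∨ (m13_1 + 1 ≤ B3 ∧ B3 ≤ m13_1 + 1) := by
    have := C.f13_2
    clear C
    omega
  have d_f13_5 : (m13_2 ≤ m13_1 + n2 ∧ m13_1 + n2 ≤ m13_2) ∨ (m13_2 + 1 ≤ B3 ∧ B3 ≤ m13_2 + 1) := by
    have := C.f13_5
    clear C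
    omega
  have d_f13_8 : (m13_3 ≤ m13_2 + n3 ∧ m13_2 + n3 ≤ m13_3) ∨ (m13_3 + 1 ≤ B3 ∧ B3 ≤ m13_3 + 1) := by
    have := C.f13_8
    clear C
    omega
  have d_f23_7 : (m23_2 ≤ m23_1 + n2 ∧ m23_1 + n2 ≤ m23_2) ∨ (m23_2 + 1 ≤ A2 ∧ A2 ≤ m23_2 + 1) ∨ (m23_2 + 1 ≤ B3 ∧ B3 ≤ m23_2 + 1) := by
    have := C.f23_7
    clear C
    omega
  have d_f23_10 : (m23_3 ≤ m23_2 + n3 ∧ m23_2 + n3 ≤ m23_3) ∨ (m23_3 + 1 ≤ B3 ∧ B3 ≤ m23_3 + 1) := by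
    have := C.f23_10
    clear C
    omega
  have d_p13_23A : A1 ≤ 0 ∨ B3 ≤ 0 ∨ A2 ≤ 0 ∨ m13_1 + m23_1 + 1 ≤ 2 * A1 ∨ m13_2 + m23_2 + 1 ≤ 2 * A2 ∨ m13_3 + m23_3 + 1 ≤ 2 * A3 := by
    have := C.p13_23A
    clear C
    omega
  have d_tmpp : n1 ≤ A1 ∨ A2 ≤ A1 + 1 ∨ B1 ≤ 0 ∨ B1 + n2 ≤ B2 + 1 := by
    have := C.tmpp
    clear C
    omega
  clear C
  rcases d_f13_2 with ⟨x_f13_2_0_0, x_f13_2_0_1⟩ | ⟨x_f13_2_1_0, x_f13_2_1_1⟩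
  · rcases d_f13_5 with ⟨x_f13_5_0_0, x_f13_5_0_1⟩ | ⟨x_f13_5_1_0, x_f13_5_1_1⟩
    · rcases d_f13_8 with ⟨x_f13_8_0_0, x_f13_8_0_1⟩ | ⟨x_f13_8_1_0, x_f13_8_1_1⟩
      · linarith only [h_b5, h_f11_0, h_f11_1, h_f13_7, h_f23_5, h_o0, h_o1, s2, x_f13_2_0_1, x_f13_5_0_1, x_f13_8_0_1]
      · rcases d_tmpp with x_tmpp_0_0 | x_tmpp_1_0 | x_tmpp_2_0 | x_tmpp_3_0
        · linarith only [h_b1, h_f11_0, h_f13_0, h_f23_0, s1, x_tmpp_0_0]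
        · linarith only [h_f11_0, h_f13_0, h_f23_1, h_o0, s1, x_tmpp_1_0]
        · linarith only [e0, x_tmpp_2_0]
        · rcases d_p13_23A with x_p13_23A_0_0 | x_p13_23A_1_0 | x_p13_23A_2_0 | x_p13_23A_3_0 | x_p13_23A_4_0 | x_p13_23A_5_0
          · linarith only [e0, h_o0, x_p13_23A_0_0]
          · linarith only [e0, h_f11_0, h_f11_1, h_f13_0, h_f13_4, h_f23_1, h_f23_5, h_o0, h_o1, s1, s2, x_p13_23A_1_0, x_tmpp_3_0]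
          · linarith only [e0, h_f11_0, h_f13_0, h_f23_1, h_o0, s1, x_p13_23A_2_0]
          · linarith only [h_f11_0, h_o0, s1, x_p13_23A_3_0]
          · linarith only [h_f11_0, h_f11_1, h_o1, s2, x_p13_23A_4_0, x_tmpp_3_0]
          · rcases d_f23_10 with ⟨x_f23_10_0_0, x_f23_10_0_1⟩ | ⟨x_f23_10_1_0, x_f23_10_1_1⟩
            · rcases d_f23_7 with ⟨x_f23_7_0_0, x_f23_7_0_1⟩ | ⟨x_f23_7_1_0, x_f23_7_1_1⟩ | ⟨x_f23_7_2_0, x_f23_7_2_1⟩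
              · linarith only [h_b5, h_f11_0, h_f11_1, h_f13_0, h_f13_3, h_o1, h_o2, s1, s2, x_f13_8_1_1, x_f23_10_0_1, x_f23_7_0_1, x_p13_23A_5_0, x_tmpp_3_0]
              · linarith only [h_b5, h_o1, h_o2, x_f13_8_1_1, x_f23_10_0_1, x_f23_7_1_1, x_p13_23A_5_0]
              · linarith only [h_b5, h_f11_0, h_f11_1, h_f13_4, h_o1, h_o2, s2, x_f13_8_1_1, x_f23_10_0_1, x_f23_7_2_1, x_p13_23A_5_0, x_tmpp_3_0]
            · linarith only [h_o2, x_f13_8_1_1, x_f23_10_1_1, x_p13_23A_5_0]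
    · rcases d_f23_7 with ⟨x_f23_7_0_0, x_f23_7_0_1⟩ | ⟨x_f23_7_1_0, x_f23_7_1_1⟩ | ⟨x_f23_7_2_0, x_f23_7_2_1⟩
      · linarith only [h_f11_0, h_f11_1, h_f13_0, h_f13_3, h_f23_5, h_o0, s1, s2, x_f23_7_0_1]
      · rcases d_f13_8 with ⟨x_f13_8_0_0, x_f13_8_0_1⟩ | ⟨x_f13_8_1_0, x_f13_8_1_1⟩
        · linarith only [h_a4, h_b5, h_f13_7, h_o1, h_o2, x_f13_5_1_1, x_f13_8_0_1]
        · rcases d_tmpp with x_tmpp_0_0 | x_tmpp_1_0 | x_tmpp_2_0 | x_tmpp_3_0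
          · linarith only [h_f11_0, h_f13_0, h_f23_0, h_o0, s1, x_tmpp_0_0]
          · linarith only [h_f11_0, h_f13_0, h_f23_1, h_o0, s1, x_tmpp_1_0]
          · linarith only [e0, x_tmpp_2_0]
          · rcases d_p13_23A with x_p13_23A_0_0 | x_p13_23A_1_0 | x_p13_23A_2_0 | x_p13_23A_3_0 | x_p13_23A_4_0 | x_p13_23A_5_0
            · linarith only [e0, h_o0, x_p13_23A_0_0]
            · linarith only [e0, h_f11_0, h_f11_1, h_f13_0, h_f13_4, h_f23_1, h_f23_5, h_o0, h_o1, s1, s2, x_p13_23A_1_0, x_tmpp_3_0]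
            · linarith only [e0, h_f11_0, h_f13_0, h_f23_1, h_o0, s1, x_p13_23A_2_0]
            · linarith only [h_f11_0, h_o0, s1, x_p13_23A_3_0]
            · linarith only [h_f11_0, h_f11_1, h_o1, s2, x_p13_23A_4_0, x_tmpp_3_0]
            · rcases d_f23_10 with ⟨x_f23_10_0_0, x_f23_10_0_1⟩ | ⟨x_f23_10_1_0, x_f23_10_1_1⟩
              · linarith only [h_b5, h_o1, h_o2, x_f13_8_1_1, x_f23_10_0_1, x_f23_7_1_1, x_p13_23A_5_0]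
              · linarith only [h_o2, x_f13_8_1_1, x_f23_10_1_1, x_p13_23A_5_0]
      · linarith only [h_a4, h_f23_5, h_o2, x_f23_7_2_1]
  · linarith only [h_a4, h_f11_0, h_f13_0, h_f23_1, h_o0, h_o2, s1, x_f13_2_1_1]

end Pool.Agent.Helper43.TQ
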