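import Pool.Agent.Helper89.TQ.Ctx

set_option autoImplicit false
set_option linter.all false
set_option maxHeartbeats 0

namespace Pool.Agent.Helper43.TQ

open Pool.Agent.Helper89.TQ

theorem c0_11_33_33_k2 {n1 n2 n3 A1 A2 A3 B1 B2 B3 m11_1 m11_2 m11_3 m13_1 m13_2 m13_3 m22_1 m22_2 m22_3 m23_1 m23_2 m23_3 m33_1 m33_2 m33_3 : ℤ}
    (C : Ctx0 n1 n2 n3 A1 A2 A3 B1 B2 B3 m11_1 m11_2 m11_3 m13_1 m13_2 m13_3 m22_1 m22_2 m22_3 m23_1 m23_2 m23_3 m33_1 m33_2 m33_3)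
    (e0 : 0 < B1)
    (e1 : 0 < A3)
    (s1 : 2 * A1 + 1 * B1 ≤ m11_1 + m33_1 + m33_1)
    (s2 : 2 * A2 + 1 * B2 ≤ m11_2 + m33_2 + m33_2)
    (s3 : 2 * A3 + 1 * B3 ≤ m11_3 + m33_3 + m33_3) : False := by
  have h_a2 := C.a2
  have h_a3 := C.a3
  have h_a4 := C.a4
  have h_a5 := C.a5
  have h_b2 := C.b2
  have h_b3 := C.b3
  have h_b5 := C.b5
  have h_o0 := C.o0
  have h_o1 := C.o1
  have h_o2 := C.o2
  have h_f11_0 := C.f11_0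
  have h_f11_1 := C.f11_1
  have h_f11_2 := C.f11_2
  have h_f13_0 := C.f13_0
  have h_f13_7 := C.f13_7
  have h_f33_1 := C.f33_1
  have h_f33_4 := C.f33_4
  have h_f33_7 := C.f33_7
  have d_f13_2 : (m13_1 + 1 ≤ A1 ∧ A1 ≤ m13_1 + 1) ∨ (m13_1 + 1 ≤ B3 ∧ B3 ≤ m13_1 + 1) := by
    have := C.f13_2
    clear C
    omega
  have d_f13_5 : (m13_2 ≤ m13_1 + n2 ∧ m13_1 + n2 ≤ m13_2) ∨ (m13_2 + 1 ≤ B3 ∧ B3 ≤ m13_2 + 1) := by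
    have := C.f13_5
    clear C
    omega
  have d_f13_8 : (m13_3 ≤ m13_2 + n3 ∧ m13_2 + n3 ≤ m13_3) ∨ (m13_3 + 1 ≤ B3 ∧ B3 ≤ m13_3 + 1) := by
    have := C.f13_8
    clear C
    omega
  have d_p11_33B : B1 ≤ 0 ∨ A3 ≤ 0 ∨ m11_1 + m33_1 + 1 ≤ 2 * B1 ∨ m11_2 + m33_2 + 1 ≤ 2 * B2 ∨ m11_3 + m33_3 + 1 ≤ 2 * B3 := by
    have := C.p11_33B
    clear C
    omega
  have d_p13_33A : A1 ≤ 0 ∨ B3 ≤ 0 ∨ A3 ≤ 0 ∨ m13_1 + m33_1 + 1 ≤ 2 * A1 ∨ m13_2 + m33_2 + 1 ≤ 2 * A2 ∨ m13_3 + m33_3 + 1 ≤ 2 * A3 := by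
    have := C.p13_33A
    clear C
    omega
  have d_tzpm : A2 ≤ A1 ∨ A2 + n3 ≤ A3 + 1 ∨ B1 + n2 ≤ B2 ∨ B3 ≤ B2 + 1 ∨ (B2 + 1 ≤ A2 ∧ B3 ≤ A3 + 1) := by
    have := C.tzpm
    clear C
    omega
  clear C
  rcases d_f13_2 with ⟨x_f13_2_0_0, x_f13_2_0_1⟩ | ⟨x_f13_2_1_0, x_f13_2_1_1⟩
  · rcases d_p11_33B with x_p11_33B_0_0 | x_p11_33B_1_0 | x_p11_33B_2_0 | x_p11_33B_3_0 | x_p11_33B_4_0
    · linarith only [e0, x_p11_33B_0_0]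
    · linarith only [e0, h_a2, h_a4, h_o0, x_p11_33B_1_0]
    · linarith only [h_f11_0, h_o0, s1, x_p11_33B_2_0]
    · linarith only [h_b3, h_f11_0, h_f11_1, h_o1, s2, x_p11_33B_3_0]
    · rcases d_f13_5 with ⟨x_f13_5_0_0, x_f13_5_0_1⟩ | ⟨x_f13_5_1_0, x_f13_5_1_1⟩
      · rcases d_f13_8 with ⟨x_f13_8_0_0, x_f13_8_0_1⟩ | ⟨x_f13_8_1_0, x_f13_8_1_1⟩
        · linarith only [h_f11_0, h_f11_1, h_f11_2, h_f13_7, h_f33_7, h_o0, s3, x_f13_2_0_1, x_f13_5_0_1, x_f13_8_0_1]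
        · rcases d_p13_33A with x_p13_33A_0_0 | x_p13_33A_1_0 | x_p13_33A_2_0 | x_p13_33A_3_0 | x_p13_33A_4_0 | x_p13_33A_5_0
          · linarith only [e0, h_o0, x_p13_33A_0_0]
          · linarith only [e0, h_a2, h_a4, h_f33_7, h_o0, s3, x_p11_33B_4_0, x_p13_33A_1_0]
          · linarith only [e0, h_f11_0, h_f33_1, h_o0, s1, x_p13_33A_2_0]
          · linarith only [h_f11_0, s1, x_f13_2_0_1, x_p13_33A_3_0]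
          · rcases d_tzpm with x_tzpm_0_0 | x_tzpm_1_0 | x_tzpm_2_0 | x_tzpm_3_0 | ⟨x_tzpm_4_0, x_tzpm_4_1⟩
            · linarith only [h_a3, h_b2, h_f11_0, h_f11_1, s2, x_f13_2_0_1, x_f13_5_0_1, x_p13_33A_4_0, x_tzpm_0_0]
            · linarith only [h_b5, h_f11_0, h_f11_1, h_f11_2, h_f33_7, h_o0, s2, s3, x_f13_2_0_1, x_f13_5_0_1, x_p11_33B_4_0, x_p13_33A_4_0, x_tzpm_1_0]
            · linarith only [h_a3, h_f11_0, h_f11_1, s2, x_f13_2_0_1, x_f13_5_0_1, x_p13_33A_4_0, x_tzpm_2_0]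
            · linarith only [h_f11_0, h_f11_1, h_f33_4, h_f33_7, h_o0, s2, s3, x_f13_2_0_1, x_f13_5_0_1, x_p11_33B_4_0, x_p13_33A_4_0, x_tzpm_3_0]
            · linarith only [h_f33_7, s3, x_p11_33B_4_0, x_tzpm_4_1]
          · linarith only [s3, x_f13_8_1_1, x_p11_33B_4_0, x_p13_33A_5_0]
      · rcases d_p13_33A with x_p13_33A_0_0 | x_p13_33A_1_0 | x_p13_33A_2_0 | x_p13_33A_3_0 | x_p13_33A_4_0 | x_p13_33A_5_0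
        · linarith only [e0, h_o0, x_p13_33A_0_0]
        · linarith only [e0, h_f11_0, h_f33_1, h_f33_7, h_o0, s1, s3, x_p11_33B_4_0, x_p13_33A_1_0]
        · linarith only [e0, h_f11_0, h_f33_1, h_o0, s1, x_p13_33A_2_0]
        · linarith only [h_f11_0, s1, x_f13_2_0_1, x_p13_33A_3_0]
        · linarith only [h_a4, h_b5, h_f11_2, s2, s3, x_f13_5_1_1, x_p11_33B_4_0, x_p13_33A_4_0]
        · rcases d_f13_8 with ⟨x_f13_8_0_0, x_f13_8_0_1⟩ | ⟨x_f13_8_1_0, x_f13_8_1_1⟩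
          · linarith only [h_a4, h_a5, s3, x_f13_5_1_1, x_f13_8_0_1, x_p11_33B_4_0, x_p13_33A_5_0]
          · linarith only [s3, x_f13_8_1_1, x_p11_33B_4_0, x_p13_33A_5_0]
  · linarith only [h_f11_0, h_f13_0, h_f33_1, h_o2, s1, x_f13_2_1_1]

end Pool.Agent.Helper43.TQ
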