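import Pool.Agent.Helper89.TQ.Ctx

set_option autoImplicit false
set_option linter.all false
set_option maxHeartbeats 0

namespace Pool.Agent.Helper43.TQ

open Pool.Agent.Helper89.TQ

theorem c2_11_13_22_k0 {n1 n2 n3 A1 A2 A3 B1 B2 B3 m11_1 m11_2 m11_3 m12_1 m12_2 m12_3 m13_1 m13_2 m13_3 m22_1 m22_2 m22_3 m33_1 m33_2 m33_3 : ℤ}
    (C : Ctx2 n1 n2 n3 A1 A2 A3 B1 B2 B3 m11_1 m11_2 m11_3 m12_1 m12_2 m12_3 m13_1 m13_2 m13_3 m22_1 m22_2 m22_3 m33_1 m33_2 m33_3)
    (e0 : 0 < B1)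
    (e1 : 0 < A1)
    (e2 : 0 < B3)
    (e3 : 0 < A2)
    (s1 : 0 * A1 + 3 * B1 ≤ m11_1 + m13_1 + m22_1)
    (s2 : 0 * A2 + 3 * B2 ≤ m11_2 + m13_2 + m22_2)
    (s3 : 0 * A3 + 3 * B3 ≤ m11_3 + m13_3 + m22_3) : False := by
  have h_a0 := C.a0
  have h_a1 := C.a1
  have h_a2 := C.a2
  have h_a3 := C.a3
  have h_a4 := C.a4
  have h_a5 := C.a5
  have h_b0 := C.b0
  have h_b1 := C.b1
  have h_b2 := C.b2
  have h_b3 := C.b3
  have h_b4 := C.b4
  have h_b5 := C.b5
  have h_o0 := C.o0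
  have h_o1 := C.o1
  have h_o2 := C.o2
  have h_f11_0 := C.f11_0
  have h_f11_1 := C.f11_1
  have h_f11_2 := C.f11_2
  have h_f12_0 := C.f12_0
  have h_f12_4 := C.f12_4
  have h_f12_6 := C.f12_6
  have h_f13_0 := C.f13_0
  have h_f13_3 := C.f13_3
  have h_f13_4 := C.f13_4
  have h_f13_7 := C.f13_7
  have h_f22_1 := C.f22_1
  have h_f22_4 := C.f22_4
  have h_f22_6 := C.f22_6
  have h_f33_0 := C.f33_0
  have h_f33_1 := C.f33_1
  have h_f33_4 := C.f33_4
  have h_f33_7 := C.f33_7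
  have d_t23 : (A1 + 1 ≤ A2 ∧ A3 + 1 ≤ A2 + n3) ∨ (B1 + 1 ≤ B2 ∧ B3 + 1 ≤ B2 + n3) := by
    have := C.t23
    clear C
    omega
  have d_f12_2 : (m12_1 + 1 ≤ A1 ∧ A1 ≤ m12_1 + 1) ∨ (m12_1 + 1 ≤ B2 ∧ B2 ≤ m12_1 + 1) := by
    have := C.f12_2
    clear C
    omega
  have d_f12_5 : (m12_2 ≤ m12_1 + n2 ∧ m12_1 + n2 ≤ m12_2) ∨ (m12_2 + 1 ≤ B2 ∧ B2 ≤ m12_2 + 1) := by
    have := C.f12_5
    clear C
    omega
  have d_f13_2 : (m13_1 + 1 ≤ A1 ∧ A1 ≤ m13_1 + 1) ∨ (m13_1 + 1 ≤ B3 ∧ B3 ≤ m13_1 + 1) := by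
    have := C.f13_2
    clear C
    omega
  have d_f13_5 : (m13_2 ≤ m13_1 + n2 ∧ m13_1 + n2 ≤ m13_2) ∨ (m13_2 + 1 ≤ B3 ∧ B3 ≤ m13_2 + 1) := by
    have := C.f13_5
    clear C
    omega
  have d_f13_8 : (m13_3 ≤ m13_2 + n3 ∧ m13_2 + n3 ≤ m13_3) ∨ (m13_3 + 1 ≤ B3 ∧ B3 ≤ m13_3 + 1) := by
    have := C.f13_8
    clear C
    omega
  have d_f22_2 : (m22_1 ≤ n1 ∧ n1 ≤ m22_1) ∨ (m22_1 + 1 ≤ A2 ∧ A2 ≤ m22_1 + 1) := by
    have := C.f22_2
    clear C
    omega
  have d_f33_2 : (m33_1 ≤ n1 ∧ n1 ≤ m33_1) ∨ (m33_1 + 1 ≤ A3 ∧ A3 ≤ m33_1 + 1) := by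
    have := C.f33_2
    clear C
    omega
  have d_f33_5 : (m33_2 ≤ m33_1 + n2 ∧ m33_1 + n2 ≤ m33_2) ∨ (m33_2 + 1 ≤ A3 ∧ A3 ≤ m33_2 + 1) := by
    have := C.f33_5
    clear C
    omega
  have d_f33_8 : (m33_3 ≤ m33_2 + n3 ∧ m33_2 + n3 ≤ m33_3) ∨ (m33_3 + 1 ≤ A3 ∧ A3 ≤ m33_3 + 1) := by
    have := C.f33_8
    clear C
    omega
  have d_p11_12B : B1 ≤ 0 ∨ A1 ≤ 0 ∨ B2 ≤ 0 ∨ m11_1 + m12_1 + 1 ≤ 2 * B1 ∨ m11_2 + m12_2 + 1 ≤ 2 * B2 ∨ m11_3 + m12_3 + 1 ≤ 2 * B3 := by
    have := C.p11_12B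
    clear C
    omega
  have d_p11_13B : B1 ≤ 0 ∨ A1 ≤ 0 ∨ B3 ≤ 0 ∨ m11_1 + m13_1 + 1 ≤ 2 * B1 ∨ m11_2 + m13_2 + 1 ≤ 2 * B2 ∨ m11_3 + m13_3 + 1 ≤ 2 * B3 := by
    have := C.p11_13B
    clear C
    omega
  have d_p11_22B : B1 ≤ 0 ∨ A2 ≤ 0 ∨ m11_1 + m22_1 + 1 ≤ 2 * B1 ∨ m11_2 + m22_2 + 1 ≤ 2 * B2 ∨ m11_3 + m22_3 + 1 ≤ 2 * B3 := by
    have := C.p11_22B
    clear C
    omega
  have d_p11_33A : B1 ≤ 0 ∨ A3 ≤ 0 ∨ m11_1 + m33_1 + 1 ≤ 2 * A1 ∨ m11_2 + m33_2 + 1 ≤ 2 * A2 ∨ m11_3 + m33_3 + 1 ≤ 2 * A3 := by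
    have := C.p11_33A
    clear C
    omega
  have d_p11_33B : B1 ≤ 0 ∨ A3 ≤ 0 ∨ m11_1 + m33_1 + 1 ≤ 2 * B1 ∨ m11_2 + m33_2 + 1 ≤ 2 * B2 ∨ m11_3 + m33_3 + 1 ≤ 2 * B3 := by
    have := C.p11_33B
    clear C
    omega
  have d_p12_13B : A1 ≤ 0 ∨ B2 ≤ 0 ∨ B3 ≤ 0 ∨ m12_1 + m13_1 + 1 ≤ 2 * B1 ∨ m12_2 + m13_2 + 1 ≤ 2 * B2 ∨ m12_3 + m13_3 + 1 ≤ 2 * B3 := by
    have := C.p12_13B
    clear C
    omega
  have d_p12_33A : A1 ≤ 0 ∨ B2 ≤ 0 ∨ A3 ≤ 0 ∨ m12_1 + m33_1 + 1 ≤ 2 * A1 ∨ m12_2 + m33_2 + 1 ≤ 2 * A2 ∨ m12_3 + m33_3 + 1 ≤ 2 * A3 := by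
    have := C.p12_33A
    clear C
    omega
  have d_p22_33A : A2 ≤ 0 ∨ A3 ≤ 0 ∨ m22_1 + m33_1 + 1 ≤ 2 * A1 ∨ m22_2 + m33_2 + 1 ≤ 2 * A2 ∨ m22_3 + m33_3 + 1 ≤ 2 * A3 := by
    have := C.p22_33A
    clear C
    omega
  have d_tzpm : A2 ≤ A1 ∨ A2 + n3 ≤ A3 + 1 ∨ B1 + n2 ≤ B2 ∨ B3 ≤ B2 + 1 := by
    have := C.tzpm
    clear C
    omega
  have d_tpmm : A1 ≤ 0 ∨ A1 + n2 ≤ A2 + 1 ∨ n1 ≤ B1 ∨ B2 ≤ B1 + 1 ∨ (B2 ≤ A2 + 1 ∧ B3 ≤ A3 + 1) ∨ A1 ≤ B1 + 1 := by
    have := C.tpmm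
    clear C
    omega
  have d_tpmz : A1 ≤ 0 ∨ A1 + n2 ≤ A2 + 1 ∨ A3 ≤ A2 ∨ n1 ≤ B1 ∨ B2 ≤ B1 + 1 ∨ B2 + n3 ≤ B3 ∨ A1 ≤ B1 + 1 := by
    have := C.tpmz
    clear C
    omega
  clear C
  rcases d_f12_2 with ⟨x_f12_2_0_0, x_f12_2_0_1⟩ | ⟨x_f12_2_1_0, x_f12_2_1_1⟩
  · rcases d_f12_5 with ⟨x_f12_5_0_0, x_f12_5_0_1⟩ | ⟨x_f12_5_1_0, x_f12_5_1_1⟩
    · linarith only [h_f11_0, h_f11_1, h_f12_4, h_f13_0, h_f13_3, h_f22_4, h_o0, h_o1, s2, x_f12_2_0_1, x_f12_5_0_1]
    · rcases d_f33_2 with ⟨x_f33_2_0_0, x_f33_2_0_1⟩ | ⟨x_f33_2_1_0, x_f33_2_1_1⟩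
      · rcases d_t23 with ⟨x_t23_0_0, x_t23_0_1⟩ | ⟨x_t23_1_0, x_t23_1_1⟩
        · rcases d_f33_5 with ⟨x_f33_5_0_0, x_f33_5_0_1⟩ | ⟨x_f33_5_1_0, x_f33_5_1_1⟩
          · rcases d_f13_2 with ⟨x_f13_2_0_0, x_f13_2_0_1⟩ | ⟨x_f13_2_1_0, x_f13_2_1_1⟩
            · rcases d_f13_5 with ⟨x_f13_5_0_0, x_f13_5_0_1⟩ | ⟨x_f13_5_1_0, x_f13_5_1_1⟩
              · rcases d_f33_8 with ⟨x_f33_8_0_0, x_f33_8_0_1⟩ | ⟨x_f33_8_1_0, x_f33_8_1_1⟩
                · linarith only [h_a1, h_f11_0, h_f11_1, h_f11_2, h_f13_0, h_f13_3, h_f13_7, h_f22_4, h_f22_6, h_f33_7, h_o0, h_o1, h_o2, s2, s3, x_f33_2_0_1, x_f33_5_0_1, x_f33_8_0_1]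
                · rcases d_p11_33B with x_p11_33B_0_0 | x_p11_33B_1_0 | x_p11_33B_2_0 | x_p11_33B_3_0 | x_p11_33B_4_0
                  · linarith only [e0, x_p11_33B_0_0]
                  · linarith only [h_a0, h_a1, h_a3, h_f33_4, x_f33_2_0_1, x_f33_5_0_1, x_p11_33B_1_0, x_t23_0_0]
                  · linarith only [h_a1, h_f11_0, h_o0, x_f33_2_0_1, x_p11_33B_2_0]
                  · linarith only [h_a1, h_f13_0, h_f13_3, h_f22_4, h_o1, s2, x_f33_2_0_1, x_f33_5_0_1, x_p11_33B_3_0]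
                  · rcases d_p12_13B with x_p12_13B_0_0 | x_p12_13B_1_0 | x_p12_13B_2_0 | x_p12_13B_3_0 | x_p12_13B_4_0 | x_p12_13B_5_0
                    · linarith only [e0, h_o0, x_p12_13B_0_0]
                    · linarith only [h_a0, h_a2, h_o1, x_p12_13B_1_0]
                    · linarith only [e0, h_a2, h_b4, h_f11_0, h_f13_0, h_f22_1, h_o1, s1, x_p12_13B_2_0]
                    · linarith only [h_o0, x_f12_2_0_1, x_f13_2_0_1, x_p12_13B_3_0]
                    · linarith only [h_f11_0, h_f11_1, h_f22_4, h_o0, h_o1, s2, x_f12_5_1_1, x_f13_2_0_1, x_f13_5_0_1, x_p12_13B_4_0]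
                    · rcases d_f13_8 with ⟨x_f13_8_0_0, x_f13_8_0_1⟩ | ⟨x_f13_8_1_0, x_f13_8_1_1⟩
                      · linarith only [h_f11_0, h_f11_1, h_f11_2, h_f12_6, h_f13_7, h_f22_4, h_f22_6, h_o0, h_o1, s3, x_f12_5_1_1, x_f13_2_0_1, x_f13_5_0_1, x_f13_8_0_1, x_p12_13B_5_0]
                      · rcases d_p22_33A with x_p22_33A_0_0 | x_p22_33A_1_0 | x_p22_33A_2_0 | x_p22_33A_3_0 | x_p22_33A_4_0
                        · linarith only [h_a0, x_p22_33A_0_0, x_t23_0_0]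
                        · linarith only [e0, h_a1, h_a3, h_f33_4, h_o0, x_f33_2_0_1, x_f33_5_0_1, x_p22_33A_1_0, x_t23_0_0]
                        · rcases d_f22_2 with ⟨x_f22_2_0_0, x_f22_2_0_1⟩ | ⟨x_f22_2_1_0, x_f22_2_1_1⟩
                          · linarith only [h_a1, x_f22_2_0_1, x_f33_2_0_1, x_p22_33A_2_0]
                          · linarith only [h_a1, x_f22_2_1_1, x_f33_2_0_1, x_p22_33A_2_0, x_t23_0_0]
                        · linarith only [h_b1, h_f11_0, h_f11_1, h_f11_2, h_f12_6, h_f22_6, h_o1, s3, x_f12_5_1_1, x_f13_8_1_1, x_f33_2_0_1, x_f33_5_0_1, x_p12_13B_5_0, x_p22_33A_3_0]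
                        · linarith only [h_f13_7, s3, x_f33_8_1_1, x_p11_33B_4_0, x_p22_33A_4_0]
              · linarith only [h_a1, h_f13_0, h_f13_3, h_f33_4, h_o2, x_f13_5_1_1, x_f33_2_0_1, x_f33_5_0_1]
            · linarith only [h_b4, h_f13_0, h_o1, x_f13_2_1_1, x_t23_0_0]
          · rcases d_f33_8 with ⟨x_f33_8_0_0, x_f33_8_0_1⟩ | ⟨x_f33_8_1_0, x_f33_8_1_1⟩
            · linarith only [h_a4, h_f33_7, x_f33_5_1_1, x_f33_8_0_1, x_t23_0_1]
            · rcases d_f13_2 with ⟨x_f13_2_0_0, x_f13_2_0_1⟩ | ⟨x_f13_2_1_0, x_f13_2_1_1⟩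
              · rcases d_f13_8 with ⟨x_f13_8_0_0, x_f13_8_0_1⟩ | ⟨x_f13_8_1_0, x_f13_8_1_1⟩
                · rcases d_f13_5 with ⟨x_f13_5_0_0, x_f13_5_0_1⟩ | ⟨x_f13_5_1_0, x_f13_5_1_1⟩
                  · linarith only [h_f11_0, h_f11_1, h_f11_2, h_f13_7, h_f22_4, h_f22_6, h_o0, h_o1, s2, s3, x_f13_2_0_1, x_f13_5_0_1, x_f13_8_0_1]
                  · linarith only [h_a4, h_f13_7, x_f13_5_1_1, x_f13_8_0_1, x_t23_0_1]
                · rcases d_f13_5 with ⟨x_f13_5_0_0, x_f13_5_0_1⟩ | ⟨x_f13_5_1_0, x_f13_5_1_1⟩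
                  · rcases d_p12_13B with x_p12_13B_0_0 | x_p12_13B_1_0 | x_p12_13B_2_0 | x_p12_13B_3_0 | x_p12_13B_4_0 | x_p12_13B_5_0
                    · linarith only [e0, h_o0, x_p12_13B_0_0]
                    · linarith only [h_a0, h_a2, h_o1, x_p12_13B_1_0]
                    · linarith only [e0, h_b2, h_b4, x_p12_13B_2_0]
                    · linarith only [h_o0, x_f12_2_0_1, x_f13_2_0_1, x_p12_13B_3_0]
                    · linarith only [h_f11_0, h_f11_1, h_f22_4, h_o0, h_o1, s2, x_f12_5_1_1, x_f13_2_0_1, x_f13_5_0_1, x_p12_13B_4_0]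
                    · rcases d_tzpm with x_tzpm_0_0 | x_tzpm_1_0 | x_tzpm_2_0 | x_tzpm_3_0
                      · linarith only [x_t23_0_0, x_tzpm_0_0]
                      · rcases d_p11_33A with x_p11_33A_0_0 | x_p11_33A_1_0 | x_p11_33A_2_0 | x_p11_33A_3_0 | x_p11_33A_4_0
                        · linarith only [e0, x_p11_33A_0_0]
                        · linarith only [e0, h_a2, h_a4, h_o0, x_p11_33A_1_0]
                        · rcases d_p11_33B with x_p11_33B_0_0 | x_p11_33B_1_0 | x_p11_33B_2_0 | x_p11_33B_3_0 | x_p11_33B_4_0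
                          · linarith only [e0, x_p11_33B_0_0]
                          · linarith only [e0, h_f11_0, h_f11_1, h_f11_2, h_f12_6, h_f13_4, h_f22_1, h_f22_4, h_f22_6, h_o1, s1, s3, x_f12_5_1_1, x_f13_5_0_1, x_p11_33B_1_0, x_p12_13B_5_0, x_tzpm_1_0]
                          · linarith only [h_a1, h_f11_0, h_o0, x_f33_2_0_1, x_p11_33B_2_0]
                          · linarith only [h_a4, h_f11_2, h_f13_4, h_f13_7, h_f22_4, h_f22_6, s2, s3, x_f33_5_1_1, x_p11_33B_3_0, x_tzpm_1_0]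
                          · linarith only [h_f13_7, h_f22_4, h_f22_6, s3, x_f33_8_1_1, x_p11_33B_4_0, x_tzpm_1_0]
                        · linarith only [h_a3, h_f11_2, h_f12_6, h_f13_4, h_f22_4, h_f22_6, h_o1, s3, x_f12_5_1_1, x_f13_2_0_1, x_f13_5_0_1, x_f33_5_1_1, x_p11_33A_3_0, x_p12_13B_5_0, x_tzpm_1_0]
                        · linarith only [h_f12_6, h_f22_4, h_f22_6, h_o1, h_o2, s3, x_f12_5_1_1, x_f33_8_1_1, x_p11_33A_4_0, x_p12_13B_5_0]
                      · linarith only [h_f11_0, h_f11_1, h_f11_2, h_f12_6, h_f22_4, h_f22_6, h_o1, s3, x_f12_5_1_1, x_f13_8_1_1, x_p12_13B_5_0, x_tzpm_2_0]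
                      · linarith only [h_f11_0, h_f11_1, h_f11_2, h_f12_6, h_f13_4, h_f22_4, h_f22_6, h_o0, h_o1, s3, x_f12_5_1_1, x_f13_2_0_1, x_f13_5_0_1, x_f13_8_1_1, x_p12_13B_5_0, x_tzpm_3_0]
                  · rcases d_p11_33B with x_p11_33B_0_0 | x_p11_33B_1_0 | x_p11_33B_2_0 | x_p11_33B_3_0 | x_p11_33B_4_0
                    · linarith only [e0, x_p11_33B_0_0]
                    · linarith only [e0, h_a4, h_o0, x_p11_33B_1_0, x_t23_0_0]
                    · linarith only [h_a1, h_f11_0, h_o0, x_f33_2_0_1, x_p11_33B_2_0]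
                    · rcases d_p12_13B with x_p12_13B_0_0 | x_p12_13B_1_0 | x_p12_13B_2_0 | x_p12_13B_3_0 | x_p12_13B_4_0 | x_p12_13B_5_0
                      · linarith only [e0, h_o0, x_p12_13B_0_0]
                      · linarith only [h_a0, h_a2, h_o1, x_p12_13B_1_0]
                      · linarith only [e0, h_a2, h_a4, h_f11_0, h_f13_0, h_f13_4, h_f22_1, h_f22_4, h_o1, s1, s2, x_f33_5_1_1, x_p11_33B_3_0, x_p12_13B_2_0]
                      · linarith only [h_o0, x_f12_2_0_1, x_f13_2_0_1, x_p12_13B_3_0]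
                      · linarith only [h_a4, h_f22_4, s2, x_f12_5_1_1, x_f33_5_1_1, x_p11_33B_3_0, x_p12_13B_4_0]
                      · rcases d_tzpm with x_tzpm_0_0 | x_tzpm_1_0 | x_tzpm_2_0 | x_tzpm_3_0
                        · linarith only [h_a1, h_f11_2, h_f12_6, h_f22_4, h_f22_6, h_f33_1, s3, x_f12_5_1_1, x_f13_8_1_1, x_f33_2_0_1, x_f33_5_1_1, x_p11_33B_3_0, x_p12_13B_5_0, x_tzpm_0_0]
                        · linarith only [h_b5, h_f13_4, h_f22_4, s2, x_f33_5_1_1, x_p11_33B_3_0, x_tzpm_1_0]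
                        · linarith only [h_f11_0, h_f11_1, h_f11_2, h_f12_6, h_f22_4, h_f22_6, h_o1, s3, x_f12_5_1_1, x_f13_8_1_1, x_p12_13B_5_0, x_tzpm_2_0]
                        · linarith only [h_a4, h_f13_4, h_f22_4, s2, x_f33_5_1_1, x_p11_33B_3_0, x_tzpm_3_0]
                    · rcases d_tzpm with x_tzpm_0_0 | x_tzpm_1_0 | x_tzpm_2_0 | x_tzpm_3_0
                      · linarith only [x_t23_0_0, x_tzpm_0_0]
                      · linarith only [h_f13_7, h_f22_4, h_f22_6, s3, x_f33_8_1_1, x_p11_33B_4_0, x_tzpm_1_0]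
                      · rcases d_p11_13B with x_p11_13B_0_0 | x_p11_13B_1_0 | x_p11_13B_2_0 | x_p11_13B_3_0 | x_p11_13B_4_0 | x_p11_13B_5_0
                        · linarith only [e0, x_p11_13B_0_0]
                        · linarith only [e0, h_o0, x_p11_13B_1_0]
                        · linarith only [h_a0, h_a4, h_a5, h_f11_2, h_f13_4, h_f22_4, h_o1, s2, x_f33_8_1_1, x_p11_13B_2_0, x_p11_33B_4_0, x_t23_0_0]
                        · linarith only [h_f11_1, h_f13_3, h_f22_4, h_o1, s2, x_p11_13B_3_0, x_tzpm_2_0]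
                        · linarith only [h_f22_4, h_o1, s2, x_p11_13B_4_0]
                        · linarith only [h_b3, h_f11_0, h_f11_1, h_f11_2, h_f22_4, h_f22_6, h_o1, s3, x_f13_8_1_1, x_p11_13B_5_0]
                      · linarith only [h_a4, h_f11_2, h_f13_4, h_f13_7, h_f22_4, h_f22_6, s2, s3, x_f33_8_1_1, x_p11_33B_4_0, x_tzpm_3_0]
              · linarith only [h_b4, h_f13_0, h_o1, x_f13_2_1_1, x_t23_0_0]
        · rcases d_f13_8 with ⟨x_f13_8_0_0, x_f13_8_0_1⟩ | ⟨x_f13_8_1_0, x_f13_8_1_1⟩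
          · rcases d_f13_5 with ⟨x_f13_5_0_0, x_f13_5_0_1⟩ | ⟨x_f13_5_1_0, x_f13_5_1_1⟩
            · rcases d_f13_2 with ⟨x_f13_2_0_0, x_f13_2_0_1⟩ | ⟨x_f13_2_1_0, x_f13_2_1_1⟩
              · linarith only [h_f11_0, h_f11_1, h_f13_7, h_f22_4, h_o0, h_o1, s2, x_f13_2_0_1, x_f13_5_0_1, x_f13_8_0_1, x_t23_1_1]
              · linarith only [h_b4, h_f11_0, h_f11_1, h_f13_7, h_f22_1, h_f22_4, h_o1, s1, s2, x_f13_2_1_1, x_f13_5_0_1, x_f13_8_0_1, x_t23_1_1]
            · linarith only [h_b4, h_f13_7, x_f13_5_1_1, x_f13_8_0_1, x_t23_1_1]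
          · rcases d_f13_2 with ⟨x_f13_2_0_0, x_f13_2_0_1⟩ | ⟨x_f13_2_1_0, x_f13_2_1_1⟩
            · rcases d_f13_5 with ⟨x_f13_5_0_0, x_f13_5_0_1⟩ | ⟨x_f13_5_1_0, x_f13_5_1_1⟩
              · rcases d_p12_13B with x_p12_13B_0_0 | x_p12_13B_1_0 | x_p12_13B_2_0 | x_p12_13B_3_0 | x_p12_13B_4_0 | x_p12_13B_5_0
                · linarith only [e0, h_o0, x_p12_13B_0_0]
                · linarith only [h_a0, h_a2, h_o1, x_p12_13B_1_0]
                · linarith only [e0, h_b3, h_f11_0, h_f13_4, h_f22_1, h_o1, s1, x_f13_5_0_1, x_p12_13B_2_0]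
                · linarith only [h_o0, x_f12_2_0_1, x_f13_2_0_1, x_p12_13B_3_0]
                · linarith only [h_f11_0, h_f11_1, h_f22_4, h_o0, h_o1, s2, x_f12_5_1_1, x_f13_2_0_1, x_f13_5_0_1, x_p12_13B_4_0]
                · rcases d_f33_5 with ⟨x_f33_5_0_0, x_f33_5_0_1⟩ | ⟨x_f33_5_1_0, x_f33_5_1_1⟩
                  · rcases d_p11_33B with x_p11_33B_0_0 | x_p11_33B_1_0 | x_p11_33B_2_0 | x_p11_33B_3_0 | x_p11_33B_4_0
                    · linarith only [e0, x_p11_33B_0_0]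
                    · linarith only [e0, h_a1, h_f11_0, h_f11_1, h_f11_2, h_f12_6, h_f13_0, h_f22_1, h_f22_4, h_f22_6, h_f33_4, h_o1, s1, s3, x_f12_5_1_1, x_f13_8_1_1, x_f33_2_0_1, x_f33_5_0_1, x_p11_33B_1_0, x_p12_13B_5_0]
                    · linarith only [h_a1, h_f11_0, h_o0, x_f33_2_0_1, x_p11_33B_2_0]
                    · linarith only [h_a1, h_a3, h_f11_2, h_f12_6, h_f22_4, h_f22_6, s3, x_f12_5_1_1, x_f13_8_1_1, x_f33_2_0_1, x_f33_5_0_1, x_p11_33B_3_0, x_p12_13B_5_0]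
                    · rcases d_tpmz with x_tpmz_0_0 | x_tpmz_1_0 | x_tpmz_2_0 | x_tpmz_3_0 | x_tpmz_4_0 | x_tpmz_5_0 | x_tpmz_6_0
                      · linarith only [e0, h_o0, x_tpmz_0_0]
                      · linarith only [h_b3, h_o0, h_o1, x_tpmz_1_0]
                      · linarith only [h_a1, h_a3, h_f33_4, x_f33_2_0_1, x_f33_5_0_1, x_tpmz_2_0]
                      · linarith only [h_a1, h_o0, x_tpmz_3_0]
                      · linarith only [h_a2, h_o0, h_o1, x_tpmz_4_0]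
                      · linarith only [x_t23_1_1, x_tpmz_5_0]
                      · rcases d_f33_8 with ⟨x_f33_8_0_0, x_f33_8_0_1⟩ | ⟨x_f33_8_1_0, x_f33_8_1_1⟩
                        · linarith only [h_b1, h_f11_0, h_f11_1, h_f11_2, h_f12_6, h_f22_4, h_f22_6, h_o1, s3, x_f12_5_1_1, x_f33_2_0_1, x_f33_5_0_1, x_f33_8_0_1, x_p11_33B_4_0, x_p12_13B_5_0]
                        · rcases d_p22_33A with x_p22_33A_0_0 | x_p22_33A_1_0 | x_p22_33A_2_0 | x_p22_33A_3_0 | x_p22_33A_4_0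
                          · linarith only [e0, h_a2, h_f11_0, h_f13_0, h_f22_1, s1, x_p22_33A_0_0]
                          · linarith only [e0, h_a1, h_a2, h_a3, h_f11_0, h_f13_0, h_f22_1, h_f33_4, s1, x_f33_2_0_1, x_f33_5_0_1, x_p22_33A_1_0]
                          · linarith only [h_a1, h_f11_0, h_f13_0, s1, x_f33_2_0_1, x_p22_33A_2_0, x_tpmz_6_0]
                          · linarith only [h_b1, h_f11_0, h_f11_1, h_f11_2, h_f12_6, h_f22_6, h_o1, s3, x_f12_5_1_1, x_f13_8_1_1, x_f33_2_0_1, x_f33_5_0_1, x_p12_13B_5_0, x_p22_33A_3_0]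
                          · linarith only [h_f13_7, s3, x_f33_8_1_1, x_p11_33B_4_0, x_p22_33A_4_0]
                  · rcases d_f33_8 with ⟨x_f33_8_0_0, x_f33_8_0_1⟩ | ⟨x_f33_8_1_0, x_f33_8_1_1⟩
                    · linarith only [h_a3, h_f11_0, h_f11_1, h_f11_2, h_f13_4, h_f13_7, h_f22_4, h_f22_6, h_f33_7, h_o0, s3, x_f13_2_0_1, x_f13_5_0_1, x_f33_5_1_1, x_f33_8_0_1]
                    · rcases d_p11_33B with x_p11_33B_0_0 | x_p11_33B_1_0 | x_p11_33B_2_0 | x_p11_33B_3_0 | x_p11_33B_4_0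
                      · linarith only [e0, x_p11_33B_0_0]
                      · linarith only [e0, h_a2, h_a4, h_f11_0, h_f13_0, h_f22_1, s1, x_p11_33B_1_0]
                      · linarith only [h_a1, h_f11_0, h_o0, x_f33_2_0_1, x_p11_33B_2_0]
                      · rcases d_tzpm with x_tzpm_0_0 | x_tzpm_1_0 | x_tzpm_2_0 | x_tzpm_3_0
                        · linarith only [h_a1, h_f11_2, h_f12_6, h_f22_4, h_f22_6, h_f33_1, s3, x_f12_5_1_1, x_f13_8_1_1, x_f33_2_0_1, x_f33_5_1_1, x_p11_33B_3_0, x_p12_13B_5_0, x_tzpm_0_0]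
                        · linarith only [h_f11_0, h_f11_1, h_f11_2, h_f12_6, h_f13_4, h_f22_4, h_f22_6, h_o0, h_o1, s3, x_f12_5_1_1, x_f13_2_0_1, x_f13_5_0_1, x_f13_8_1_1, x_f33_5_1_1, x_p11_33B_3_0, x_p12_13B_5_0, x_tzpm_1_0]
                        · linarith only [h_f11_0, h_f11_1, h_f11_2, h_f12_6, h_f22_4, h_f22_6, h_o1, s3, x_f12_5_1_1, x_f13_8_1_1, x_p12_13B_5_0, x_tzpm_2_0]
                        · linarith only [h_f11_0, h_f11_1, h_f11_2, h_f12_6, h_f13_4, h_f22_4, h_f22_6, h_o0, h_o1, s3, x_f12_5_1_1, x_f13_2_0_1, x_f13_5_0_1, x_f13_8_1_1, x_p12_13B_5_0, x_tzpm_3_0]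
                      · rcases d_tzpm with x_tzpm_0_0 | x_tzpm_1_0 | x_tzpm_2_0 | x_tzpm_3_0
                        · rcases d_p11_12B with x_p11_12B_0_0 | x_p11_12B_1_0 | x_p11_12B_2_0 | x_p11_12B_3_0 | x_p11_12B_4_0 | x_p11_12B_5_0
                          · linarith only [e0, x_p11_12B_0_0]
                          · linarith only [e0, h_o0, x_p11_12B_1_0]
                          · linarith only [h_a0, h_a2, h_o1, x_p11_12B_2_0]
                          · linarith only [h_f11_0, h_f13_0, h_f22_1, s1, x_f12_2_0_1, x_p11_12B_3_0, x_tzpm_0_0]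
                          · linarith only [h_f11_2, h_f12_6, h_f22_4, h_f22_6, h_o1, s3, x_f12_5_1_1, x_f13_8_1_1, x_p11_12B_4_0, x_p12_13B_5_0]
                          · linarith only [h_b5, h_f12_6, h_f22_4, h_f22_6, h_o1, s3, x_f12_5_1_1, x_p11_12B_5_0, x_p12_13B_5_0]
                        · linarith only [h_f13_7, h_f22_4, h_f22_6, s3, x_f33_8_1_1, x_p11_33B_4_0, x_tzpm_1_0]
                        · linarith only [h_f11_0, h_f11_1, h_f11_2, h_f12_6, h_f22_4, h_f22_6, h_o1, s3, x_f12_5_1_1, x_f13_8_1_1, x_p12_13B_5_0, x_tzpm_2_0]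
                        · linarith only [h_f11_0, h_f11_1, h_f11_2, h_f12_6, h_f13_4, h_f22_4, h_f22_6, h_o0, h_o1, s3, x_f12_5_1_1, x_f13_2_0_1, x_f13_5_0_1, x_f13_8_1_1, x_p12_13B_5_0, x_tzpm_3_0]
              · rcases d_f33_8 with ⟨x_f33_8_0_0, x_f33_8_0_1⟩ | ⟨x_f33_8_1_0, x_f33_8_1_1⟩
                · rcases d_f33_5 with ⟨x_f33_5_0_0, x_f33_5_0_1⟩ | ⟨x_f33_5_1_0, x_f33_5_1_1⟩
                  · linarith only [h_a1, h_a3, h_a5, h_f33_7, x_f33_2_0_1, x_f33_5_0_1, x_f33_8_0_1]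
                  · linarith only [h_b4, h_f33_7, x_f33_5_1_1, x_f33_8_0_1, x_t23_1_1]
                · rcases d_f33_5 with ⟨x_f33_5_0_0, x_f33_5_0_1⟩ | ⟨x_f33_5_1_0, x_f33_5_1_1⟩
                  · linarith only [h_a1, h_f13_0, h_f13_3, h_f33_4, h_o2, x_f13_5_1_1, x_f33_2_0_1, x_f33_5_0_1]
                  · rcases d_p11_33B with x_p11_33B_0_0 | x_p11_33B_1_0 | x_p11_33B_2_0 | x_p11_33B_3_0 | x_p11_33B_4_0
                    · linarith only [e0, x_p11_33B_0_0]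
                    · linarith only [h_a0, h_a1, h_f33_1, x_f33_2_0_1, x_p11_33B_1_0]
                    · linarith only [h_a1, h_f11_0, h_o0, x_f33_2_0_1, x_p11_33B_2_0]
                    · rcases d_tzpm with x_tzpm_0_0 | x_tzpm_1_0 | x_tzpm_2_0 | x_tzpm_3_0
                      · rcases d_f22_2 with ⟨x_f22_2_0_0, x_f22_2_0_1⟩ | ⟨x_f22_2_1_0, x_f22_2_1_1⟩
                        · linarith only [h_a1, h_f22_1, x_f22_2_0_1, x_tzpm_0_0]
                        · rcases d_p11_13B with x_p11_13B_0_0 | x_p11_13B_1_0 | x_p11_13B_2_0 | x_p11_13B_3_0 | x_p11_13B_4_0 | x_p11_13B_5_0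
                          · linarith only [e0, x_p11_13B_0_0]
                          · linarith only [e0, h_o0, x_p11_13B_1_0]
                          · linarith only [h_a0, h_a1, h_a3, h_b0, h_f11_0, h_f11_1, h_f13_4, h_f22_4, h_f33_1, s2, x_f33_2_0_1, x_f33_5_1_1, x_p11_13B_2_0, x_p11_33B_3_0, x_tzpm_0_0]
                          · linarith only [h_f11_0, h_f22_1, s1, x_f13_2_0_1, x_p11_13B_3_0, x_tzpm_0_0]
                          · linarith only [h_a1, h_b3, h_f11_0, h_f11_1, h_f22_4, h_f33_1, s2, x_f33_2_0_1, x_f33_5_1_1, x_p11_13B_4_0, x_p11_33B_3_0, x_tzpm_0_0]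
                          · linarith only [h_a1, h_b3, h_f11_0, h_f11_1, h_f11_2, h_f22_4, h_f22_6, h_f33_1, s3, x_f13_8_1_1, x_f33_2_0_1, x_f33_5_1_1, x_p11_13B_5_0, x_p11_33B_3_0, x_tzpm_0_0]
                      · linarith only [h_b5, h_f13_4, h_f22_4, s2, x_f33_5_1_1, x_p11_33B_3_0, x_tzpm_1_0]
                      · rcases d_p11_13B with x_p11_13B_0_0 | x_p11_13B_1_0 | x_p11_13B_2_0 | x_p11_13B_3_0 | x_p11_13B_4_0 | x_p11_13B_5_0
                        · linarith only [e0, x_p11_13B_0_0]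
                        · linarith only [e0, h_o0, x_p11_13B_1_0]
                        · linarith only [h_a0, h_a1, h_f13_4, h_f22_4, h_f33_1, h_o1, s2, x_f33_2_0_1, x_f33_5_1_1, x_p11_13B_2_0, x_p11_33B_3_0]
                        · linarith only [h_f11_1, h_f13_3, h_f22_4, h_o1, s2, x_p11_13B_3_0, x_tzpm_2_0]
                        · linarith only [h_f22_4, h_o1, s2, x_p11_13B_4_0]
                        · linarith only [h_b3, h_f11_0, h_f11_1, h_f11_2, h_f22_4, h_f22_6, h_o1, s3, x_f13_8_1_1, x_p11_13B_5_0]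
                      · linarith only [h_a4, h_f13_4, h_f22_4, s2, x_f33_5_1_1, x_p11_33B_3_0, x_tzpm_3_0]
                    · rcases d_p12_13B with x_p12_13B_0_0 | x_p12_13B_1_0 | x_p12_13B_2_0 | x_p12_13B_3_0 | x_p12_13B_4_0 | x_p12_13B_5_0
                      · linarith only [e0, h_o0, x_p12_13B_0_0]
                      · linarith only [e0, h_a2, h_o0, h_o1, x_p12_13B_1_0]
                      · linarith only [e0, h_b2, h_b4, x_p12_13B_2_0]
                      · linarith only [h_o0, x_f12_2_0_1, x_f13_2_0_1, x_p12_13B_3_0]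
                      · linarith only [h_a4, h_f11_2, h_f22_4, s2, x_f12_5_1_1, x_f13_5_1_1, x_f33_8_1_1, x_p11_33B_4_0, x_p12_13B_4_0, x_t23_1_1]
                      · rcases d_p11_33A with x_p11_33A_0_0 | x_p11_33A_1_0 | x_p11_33A_2_0 | x_p11_33A_3_0 | x_p11_33A_4_0
                        · linarith only [e0, x_p11_33A_0_0]
                        · linarith only [h_a0, h_a1, h_f33_1, x_f33_2_0_1, x_p11_33A_1_0]
                        · rcases d_tzpm with x_tzpm_0_0 | x_tzpm_1_0 | x_tzpm_2_0 | x_tzpm_3_0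
                          · rcases d_p11_12B with x_p11_12B_0_0 | x_p11_12B_1_0 | x_p11_12B_2_0 | x_p11_12B_3_0 | x_p11_12B_4_0 | x_p11_12B_5_0
                            · linarith only [e0, x_p11_12B_0_0]
                            · linarith only [e0, h_o0, x_p11_12B_1_0]
                            · linarith only [e0, h_a2, h_f11_0, h_f13_0, h_f22_1, h_o1, s1, x_p11_12B_2_0]
                            · linarith only [h_f11_0, h_f13_0, h_f22_1, s1, x_f12_2_0_1, x_p11_12B_3_0, x_tzpm_0_0]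
                            · linarith only [h_f11_2, h_f12_6, h_f22_4, h_f22_6, h_o1, s3, x_f12_5_1_1, x_f13_8_1_1, x_p11_12B_4_0, x_p12_13B_5_0]
                            · linarith only [h_b5, h_f12_6, h_f22_4, h_f22_6, h_o1, s3, x_f12_5_1_1, x_p11_12B_5_0, x_p12_13B_5_0]
                          · linarith only [h_f13_7, h_f22_4, h_f22_6, s3, x_f33_8_1_1, x_p11_33B_4_0, x_tzpm_1_0]
                          · linarith only [h_f11_0, h_f11_1, h_f11_2, h_f12_6, h_f22_4, h_f22_6, h_o1, s3, x_f12_5_1_1, x_f13_8_1_1, x_p12_13B_5_0, x_tzpm_2_0]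
                          · linarith only [h_a4, h_f11_2, h_f13_4, h_f13_7, h_f22_4, h_f22_6, s2, s3, x_f33_8_1_1, x_p11_33B_4_0, x_tzpm_3_0]
                        · linarith only [h_a4, h_f11_2, h_f12_6, h_f22_4, h_f22_6, h_o1, s3, x_f12_5_1_1, x_f13_8_1_1, x_f33_5_1_1, x_p11_33A_3_0, x_p12_13B_5_0]
                        · linarith only [h_f12_6, h_f22_4, h_f22_6, h_o1, h_o2, s3, x_f12_5_1_1, x_f33_8_1_1, x_p11_33A_4_0, x_p12_13B_5_0]
            · linarith only [h_a1, h_f13_0, h_f33_1, h_o2, x_f13_2_1_1, x_f33_2_0_1]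
      · rcases d_f33_8 with ⟨x_f33_8_0_0, x_f33_8_0_1⟩ | ⟨x_f33_8_1_0, x_f33_8_1_1⟩
        · rcases d_f33_5 with ⟨x_f33_5_0_0, x_f33_5_0_1⟩ | ⟨x_f33_5_1_0, x_f33_5_1_1⟩
          · linarith only [h_a2, h_a4, h_a5, h_b3, h_f11_0, h_f13_0, h_f22_1, h_f33_7, h_o1, s1, x_f33_2_1_1, x_f33_5_0_1, x_f33_8_0_1]
          · rcases d_t23 with ⟨x_t23_0_0, x_t23_0_1⟩ | ⟨x_t23_1_0, x_t23_1_1⟩
            · linarith only [h_a4, h_f33_7, x_f33_5_1_1, x_f33_8_0_1, x_t23_0_1]
            · linarith only [h_b4, h_f33_7, x_f33_5_1_1, x_f33_8_0_1, x_t23_1_1]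
        · rcases d_f13_2 with ⟨x_f13_2_0_0, x_f13_2_0_1⟩ | ⟨x_f13_2_1_0, x_f13_2_1_1⟩
          · rcases d_f33_5 with ⟨x_f33_5_0_0, x_f33_5_0_1⟩ | ⟨x_f33_5_1_0, x_f33_5_1_1⟩
            · linarith only [h_a2, h_b3, h_f11_0, h_f13_0, h_f22_1, h_f33_4, h_o1, s1, x_f33_2_1_1, x_f33_5_0_1]
            · rcases d_p11_33A with x_p11_33A_0_0 | x_p11_33A_1_0 | x_p11_33A_2_0 | x_p11_33A_3_0 | x_p11_33A_4_0
              · linarith only [e0, x_p11_33A_0_0]
              · linarith only [e0, h_a2, h_a4, h_f11_0, h_f13_0, h_f22_1, s1, x_p11_33A_1_0]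
              · rcases d_t23 with ⟨x_t23_0_0, x_t23_0_1⟩ | ⟨x_t23_1_0, x_t23_1_1⟩
                · rcases d_f13_8 with ⟨x_f13_8_0_0, x_f13_8_0_1⟩ | ⟨x_f13_8_1_0, x_f13_8_1_1⟩
                  · rcases d_f13_5 with ⟨x_f13_5_0_0, x_f13_5_0_1⟩ | ⟨x_f13_5_1_0, x_f13_5_1_1⟩
                    · linarith only [h_b3, h_b5, h_f13_7, h_o0, x_f13_2_0_1, x_f13_5_0_1, x_f13_8_0_1]
                    · linarith only [h_a4, h_f13_7, x_f13_5_1_1, x_f13_8_0_1, x_t23_0_1]
                  · rcases d_f13_5 with ⟨x_f13_5_0_0, x_f13_5_0_1⟩ | ⟨x_f13_5_1_0, x_f13_5_1_1⟩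
                    · rcases d_p12_13B with x_p12_13B_0_0 | x_p12_13B_1_0 | x_p12_13B_2_0 | x_p12_13B_3_0 | x_p12_13B_4_0 | x_p12_13B_5_0
                      · linarith only [e0, h_o0, x_p12_13B_0_0]
                      · linarith only [h_a0, h_a2, h_o1, x_p12_13B_1_0]
                      · linarith only [e0, h_b3, h_f11_0, h_f13_4, h_f22_1, h_o1, s1, x_f13_5_0_1, x_p12_13B_2_0]
                      · linarith only [h_a4, h_f22_1, s1, x_f12_2_0_1, x_f13_2_0_1, x_f33_2_1_1, x_p11_33A_2_0, x_p12_13B_3_0]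
                      · linarith only [h_f11_0, h_f11_1, h_f22_4, h_o0, h_o1, s2, x_f12_5_1_1, x_f13_2_0_1, x_f13_5_0_1, x_p12_13B_4_0]
                      · rcases d_p12_33A with x_p12_33A_0_0 | x_p12_33A_1_0 | x_p12_33A_2_0 | x_p12_33A_3_0 | x_p12_33A_4_0 | x_p12_33A_5_0
                        · linarith only [e0, h_o0, x_p12_33A_0_0]
                        · linarith only [e0, h_a2, h_o0, h_o1, x_p12_33A_1_0]
                        · linarith only [e0, h_a2, h_a4, h_f11_0, h_f13_0, h_f22_1, s1, x_p12_33A_2_0]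
                        · rcases d_tzpm with x_tzpm_0_0 | x_tzpm_1_0 | x_tzpm_2_0 | x_tzpm_3_0
                          · linarith only [x_t23_0_0, x_tzpm_0_0]
                          · linarith only [h_f11_0, h_f11_1, h_f11_2, h_f12_6, h_f13_4, h_f22_1, h_f22_4, h_f22_6, h_o1, s1, s3, x_f12_2_0_1, x_f12_5_1_1, x_f13_2_0_1, x_f13_5_0_1, x_f33_2_1_1, x_p12_13B_5_0, x_p12_33A_3_0, x_t23_0_0, x_tzpm_1_0]
                          · linarith only [h_f11_0, h_f11_1, h_f11_2, h_f12_6, h_f22_4, h_f22_6, h_o1, s3, x_f12_5_1_1, x_f13_8_1_1, x_p12_13B_5_0, x_tzpm_2_0]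
                          · linarith only [h_a4, h_f11_0, h_f11_1, h_f11_2, h_f12_6, h_f13_4, h_f22_1, h_f22_4, h_f22_6, h_o1, s1, s3, x_f12_2_0_1, x_f12_5_1_1, x_f13_2_0_1, x_f13_5_0_1, x_f13_8_1_1, x_f33_2_1_1, x_p12_13B_5_0, x_p12_33A_3_0, x_tzpm_3_0]
                        · rcases d_tzpm with x_tzpm_0_0 | x_tzpm_1_0 | x_tzpm_2_0 | x_tzpm_3_0
                          · linarith only [x_t23_0_0, x_tzpm_0_0]
                          · linarith only [h_b5, h_f11_0, h_f11_1, h_f13_4, h_f22_4, h_o0, h_o1, s2, x_f12_5_1_1, x_f13_2_0_1, x_f13_5_0_1, x_f33_5_1_1, x_p12_33A_4_0, x_tzpm_1_0]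
                          · linarith only [h_f11_0, h_f11_1, h_f11_2, h_f12_6, h_f22_4, h_f22_6, h_o1, s3, x_f12_5_1_1, x_f13_8_1_1, x_p12_13B_5_0, x_tzpm_2_0]
                          · linarith only [h_f11_0, h_f11_1, h_f11_2, h_f12_6, h_f13_4, h_f22_4, h_f22_6, h_o0, h_o1, s3, x_f12_5_1_1, x_f13_2_0_1, x_f13_5_0_1, x_f13_8_1_1, x_p12_13B_5_0, x_tzpm_3_0]
                        · linarith only [h_f12_6, h_o1, x_f12_5_1_1, x_f33_8_1_1, x_p12_33A_5_0, x_t23_0_1]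
                    · rcases d_p12_13B with x_p12_13B_0_0 | x_p12_13B_1_0 | x_p12_13B_2_0 | x_p12_13B_3_0 | x_p12_13B_4_0 | x_p12_13B_5_0
                      · linarith only [e0, h_o0, x_p12_13B_0_0]
                      · linarith only [e0, h_a2, h_o0, h_o1, x_p12_13B_1_0]
                      · linarith only [h_a0, h_a2, h_b4, h_o1, x_p12_13B_2_0]
                      · linarith only [h_o0, x_f12_2_0_1, x_f13_2_0_1, x_p12_13B_3_0]
                      · rcases d_p11_22B with x_p11_22B_0_0 | x_p11_22B_1_0 | x_p11_22B_2_0 | x_p11_22B_3_0 | x_p11_22B_4_0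
                        · linarith only [e0, x_p11_22B_0_0]
                        · linarith only [h_a0, x_p11_22B_1_0, x_t23_0_0]
                        · rcases d_f22_2 with ⟨x_f22_2_0_0, x_f22_2_0_1⟩ | ⟨x_f22_2_1_0, x_f22_2_1_1⟩
                          · linarith only [h_a1, h_f11_0, h_f13_0, s1, x_f22_2_0_1, x_p11_22B_2_0]
                          · linarith only [h_f11_0, h_f13_0, s1, x_f22_2_1_1, x_p11_22B_2_0, x_t23_0_0]
                        · linarith only [s2, x_f12_5_1_1, x_p11_22B_3_0, x_p12_13B_4_0]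
                        · linarith only [h_f13_7, s3, x_p11_22B_4_0]
                      · rcases d_f22_2 with ⟨x_f22_2_0_0, x_f22_2_0_1⟩ | ⟨x_f22_2_1_0, x_f22_2_1_1⟩
                        · rcases d_p11_22B with x_p11_22B_0_0 | x_p11_22B_1_0 | x_p11_22B_2_0 | x_p11_22B_3_0 | x_p11_22B_4_0
                          · linarith only [e0, x_p11_22B_0_0]
                          · linarith only [e0, h_a1, h_f22_1, h_o0, x_f22_2_0_1, x_p11_22B_1_0]
                          · linarith only [h_a1, h_f11_0, h_o0, x_f22_2_0_1, x_p11_22B_2_0]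
                          · rcases d_tzpm with x_tzpm_0_0 | x_tzpm_1_0 | x_tzpm_2_0 | x_tzpm_3_0
                            · linarith only [h_a1, h_f22_1, x_f22_2_0_1, x_tzpm_0_0]
                            · linarith only [h_b5, h_f13_4, h_f22_1, h_f33_0, s2, x_f22_2_0_1, x_f33_2_1_1, x_p11_22B_3_0, x_tzpm_1_0]
                            · linarith only [h_f11_0, h_f11_1, h_f11_2, h_f12_6, h_f22_4, h_f22_6, h_o1, s3, x_f12_5_1_1, x_f13_8_1_1, x_p12_13B_5_0, x_tzpm_2_0]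
                            · linarith only [h_f13_4, s2, x_p11_22B_3_0, x_tzpm_3_0]
                          · linarith only [h_f13_7, s3, x_p11_22B_4_0]
                        · rcases d_tzpm with x_tzpm_0_0 | x_tzpm_1_0 | x_tzpm_2_0 | x_tzpm_3_0
                          · linarith only [x_t23_0_0, x_tzpm_0_0]
                          · rcases d_p11_22B with x_p11_22B_0_0 | x_p11_22B_1_0 | x_p11_22B_2_0 | x_p11_22B_3_0 | x_p11_22B_4_0
                            · linarith only [e0, x_p11_22B_0_0]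
                            · linarith only [h_a0, x_p11_22B_1_0, x_t23_0_0]
                            · linarith only [h_f11_0, h_o0, x_f22_2_1_1, x_p11_22B_2_0, x_t23_0_0]
                            · rcases d_p11_12B with x_p11_12B_0_0 | x_p11_12B_1_0 | x_p11_12B_2_0 | x_p11_12B_3_0 | x_p11_12B_4_0 | x_p11_12B_5_0
                              · linarith only [e0, x_p11_12B_0_0]
                              · linarith only [e0, h_o0, x_p11_12B_1_0]
                              · linarith only [e0, h_o0, h_o1, x_p11_12B_2_0, x_t23_0_0]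
                              · linarith only [h_f11_0, h_f11_2, h_f13_4, h_f13_7, h_f22_6, s2, s3, x_f12_2_0_1, x_f33_2_1_1, x_p11_12B_3_0, x_p11_22B_3_0, x_p11_33A_2_0, x_t23_0_0, x_tzpm_1_0]
                              · linarith only [h_f11_2, h_f12_6, h_f22_4, h_f22_6, h_o2, s3, x_f12_5_1_1, x_p11_12B_4_0, x_p12_13B_5_0, x_tzpm_1_0]
                              · linarith only [h_b5, h_f12_6, h_f13_7, h_f22_4, h_f22_6, h_o2, s3, x_f12_5_1_1, x_p11_12B_5_0, x_tzpm_1_0]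
                            · linarith only [h_f13_7, s3, x_p11_22B_4_0]
                          · linarith only [h_f11_0, h_f11_1, h_f11_2, h_f12_6, h_f22_4, h_f22_6, h_o1, s3, x_f12_5_1_1, x_f13_8_1_1, x_p12_13B_5_0, x_tzpm_2_0]
                          · rcases d_p11_22B with x_p11_22B_0_0 | x_p11_22B_1_0 | x_p11_22B_2_0 | x_p11_22B_3_0 | x_p11_22B_4_0
                            · linarith only [e0, x_p11_22B_0_0]
                            · linarith only [e0, h_o0, x_p11_22B_1_0, x_t23_0_0]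
                            · linarith only [h_f11_0, h_o0, x_f22_2_1_1, x_p11_22B_2_0, x_t23_0_0]
                            · linarith only [h_f13_4, s2, x_p11_22B_3_0, x_tzpm_3_0]
                            · linarith only [h_b5, h_f11_2, h_f13_4, h_f22_6, s2, x_p11_22B_4_0, x_tzpm_3_0]
                · rcases d_p11_22B with x_p11_22B_0_0 | x_p11_22B_1_0 | x_p11_22B_2_0 | x_p11_22B_3_0 | x_p11_22B_4_0
                  · linarith only [e0, x_p11_22B_0_0]
                  · linarith only [e0, h_a2, h_o0, x_p11_22B_1_0]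
                  · rcases d_f22_2 with ⟨x_f22_2_0_0, x_f22_2_0_1⟩ | ⟨x_f22_2_1_0, x_f22_2_1_1⟩
                    · linarith only [h_a1, h_f11_0, h_f13_0, s1, x_f22_2_0_1, x_p11_22B_2_0]
                    · linarith only [h_a2, h_f11_0, h_f13_0, s1, x_f22_2_1_1, x_p11_22B_2_0]
                  · rcases d_f22_2 with ⟨x_f22_2_0_0, x_f22_2_0_1⟩ | ⟨x_f22_2_1_0, x_f22_2_1_1⟩
                    · rcases d_tzpm with x_tzpm_0_0 | x_tzpm_1_0 | x_tzpm_2_0 | x_tzpm_3_0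
                      · linarith only [h_a1, h_f22_1, x_f22_2_0_1, x_tzpm_0_0]
                      · linarith only [h_f13_4, h_f22_1, h_f33_0, s2, x_f22_2_0_1, x_f33_2_1_1, x_p11_22B_3_0, x_t23_1_1, x_tzpm_1_0]
                      · rcases d_p11_13B with x_p11_13B_0_0 | x_p11_13B_1_0 | x_p11_13B_2_0 | x_p11_13B_3_0 | x_p11_13B_4_0 | x_p11_13B_5_0
                        · linarith only [e0, x_p11_13B_0_0]
                        · linarith only [e0, h_o0, x_p11_13B_1_0]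
                        · linarith only [e0, h_b1, h_b4, h_f22_1, h_o1, x_f22_2_0_1, x_p11_13B_2_0]
                        · linarith only [h_f11_1, h_f13_3, h_f22_4, h_o1, s2, x_p11_13B_3_0, x_tzpm_2_0]
                        · linarith only [h_f22_4, h_o1, s2, x_p11_13B_4_0]
                        · rcases d_f13_8 with ⟨x_f13_8_0_0, x_f13_8_0_1⟩ | ⟨x_f13_8_1_0, x_f13_8_1_1⟩
                          · linarith only [h_f11_2, h_f22_4, h_f22_6, h_o1, s2, s3, x_f13_8_0_1, x_p11_13B_5_0]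
                          · linarith only [h_b3, h_f11_0, h_f11_1, h_f11_2, h_f22_4, h_f22_6, h_o1, s3, x_f13_8_1_1, x_p11_13B_5_0]
                      · linarith only [h_f13_4, s2, x_p11_22B_3_0, x_tzpm_3_0]
                    · rcases d_f13_8 with ⟨x_f13_8_0_0, x_f13_8_0_1⟩ | ⟨x_f13_8_1_0, x_f13_8_1_1⟩
                      · linarith only [h_f11_2, h_f13_7, h_f22_6, s2, s3, x_f13_8_0_1, x_p11_22B_3_0]
                      · rcases d_tpmm with x_tpmm_0_0 | x_tpmm_1_0 | x_tpmm_2_0 | x_tpmm_3_0 | ⟨x_tpmm_4_0, x_tpmm_4_1⟩ | x_tpmm_5_0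
                        · linarith only [e0, h_a4, h_f13_0, h_f22_1, s1, x_f33_2_1_1, x_p11_33A_2_0, x_tpmm_0_0]
                        · linarith only [h_b3, h_o0, h_o1, x_tpmm_1_0]
                        · linarith only [h_a1, h_o0, x_tpmm_2_0]
                        · linarith only [h_a2, h_o0, h_o1, x_tpmm_3_0]
                        · rcases d_p11_12B with x_p11_12B_0_0 | x_p11_12B_1_0 | x_p11_12B_2_0 | x_p11_12B_3_0 | x_p11_12B_4_0 | x_p11_12B_5_0
                          · linarith only [e0, x_p11_12B_0_0]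
                          · linarith only [e0, h_o0, x_p11_12B_1_0]
                          · linarith only [h_a0, h_a2, h_o1, x_p11_12B_2_0]
                          · linarith only [h_f11_0, h_f13_0, h_f13_4, h_f22_1, h_o1, s1, s2, x_f12_2_0_1, x_f33_2_1_1, x_p11_12B_3_0, x_p11_22B_3_0, x_p11_33A_2_0, x_tpmm_4_1]
                          · rcases d_p11_13B with x_p11_13B_0_0 | x_p11_13B_1_0 | x_p11_13B_2_0 | x_p11_13B_3_0 | x_p11_13B_4_0 | x_p11_13B_5_0
                            · linarith only [e0, x_p11_13B_0_0]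
                            · linarith only [e0, h_o0, x_p11_13B_1_0]
                            · linarith only [e0, h_a2, h_f11_0, h_f13_4, h_f22_4, h_o1, s2, x_f12_5_1_1, x_f33_2_1_1, x_p11_12B_4_0, x_p11_13B_2_0, x_p11_33A_2_0, x_tpmm_4_1]
                            · linarith only [h_f11_0, h_f11_1, h_f13_3, h_f22_4, h_o1, s2, x_f12_5_1_1, x_p11_12B_4_0, x_p11_13B_3_0]
                            · linarith only [h_f22_4, h_o1, s2, x_p11_13B_4_0]
                            · linarith only [h_b3, h_f11_0, h_f11_1, h_f11_2, h_f22_4, h_f22_6, h_o1, s3, x_f13_8_1_1, x_p11_13B_5_0]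
                          · linarith only [h_b3, h_f11_0, h_f11_1, h_f11_2, h_f12_6, x_f12_5_1_1, x_p11_12B_5_0, x_t23_1_1]
                        · rcases d_p12_33A with x_p12_33A_0_0 | x_p12_33A_1_0 | x_p12_33A_2_0 | x_p12_33A_3_0 | x_p12_33A_4_0 | x_p12_33A_5_0
                          · linarith only [e0, h_o0, x_p12_33A_0_0]
                          · linarith only [h_a0, h_a2, h_o1, x_p12_33A_1_0]
                          · linarith only [e0, h_a2, h_a4, h_o0, x_p12_33A_2_0]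
                          · rcases d_tzpm with x_tzpm_0_0 | x_tzpm_1_0 | x_tzpm_2_0 | x_tzpm_3_0
                            · linarith only [h_f11_0, h_f13_0, h_f22_1, s1, x_tpmm_5_0, x_tzpm_0_0]
                            · linarith only [h_f11_0, h_f13_0, h_f13_4, h_f22_1, s1, s2, x_f12_2_0_1, x_f33_2_1_1, x_p11_22B_3_0, x_p12_33A_3_0, x_t23_1_1, x_tpmm_5_0, x_tzpm_1_0]
                            · linarith only [h_f11_0, h_f11_1, h_f13_0, h_f13_3, h_f22_4, h_o1, s2, x_tpmm_5_0, x_tzpm_2_0]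
                            · linarith only [h_f13_4, s2, x_p11_22B_3_0, x_tzpm_3_0]
                          · rcases d_tzpm with x_tzpm_0_0 | x_tzpm_1_0 | x_tzpm_2_0 | x_tzpm_3_0
                            · linarith only [h_f11_0, h_f13_0, h_f22_1, s1, x_tpmm_5_0, x_tzpm_0_0]
                            · linarith only [h_f13_4, h_o1, s2, x_f12_5_1_1, x_f33_5_1_1, x_p11_22B_3_0, x_p12_33A_4_0, x_t23_1_1, x_tzpm_1_0]
                            · linarith only [h_f11_0, h_f11_1, h_f13_0, h_f13_3, h_f22_4, h_o1, s2, x_tpmm_5_0, x_tzpm_2_0]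
                            · linarith only [h_f13_4, s2, x_p11_22B_3_0, x_tzpm_3_0]
                          · linarith only [h_f12_6, h_o2, x_f12_5_1_1, x_f33_8_1_1, x_p12_33A_5_0, x_t23_1_1]
                  · linarith only [h_f13_7, s3, x_p11_22B_4_0]
              · rcases d_p11_13B with x_p11_13B_0_0 | x_p11_13B_1_0 | x_p11_13B_2_0 | x_p11_13B_3_0 | x_p11_13B_4_0 | x_p11_13B_5_0
                · linarith only [e0, x_p11_13B_0_0]
                · linarith only [e0, h_a4, h_f11_0, h_f11_1, h_f13_0, h_f13_3, h_f22_4, h_o1, s2, x_f33_5_1_1, x_p11_13B_1_0, x_p11_33A_3_0]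
                · linarith only [e0, h_a2, h_a4, h_f11_0, h_f11_1, h_f13_0, h_f13_3, h_f13_4, h_f22_4, h_o1, s2, x_f33_5_1_1, x_p11_13B_2_0, x_p11_33A_3_0]
                · linarith only [h_a4, h_f11_0, h_f11_1, h_f13_3, h_f22_4, h_o1, s2, x_f33_5_1_1, x_p11_13B_3_0, x_p11_33A_3_0]
                · linarith only [h_f22_4, h_o1, s2, x_p11_13B_4_0]
                · rcases d_f13_8 with ⟨x_f13_8_0_0, x_f13_8_0_1⟩ | ⟨x_f13_8_1_0, x_f13_8_1_1⟩
                  · linarith only [h_f11_2, h_f22_4, h_f22_6, h_o1, s2, s3, x_f13_8_0_1, x_p11_13B_5_0]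
                  · linarith only [h_b3, h_f11_0, h_f11_1, h_f11_2, h_f22_4, h_f22_6, h_o1, s3, x_f13_8_1_1, x_p11_13B_5_0]
              · linarith only [h_b3, h_f11_0, h_f11_1, h_f11_2, h_f13_7, h_f22_4, h_f22_6, h_o1, h_o2, s3, x_f33_8_1_1, x_p11_33A_4_0]
          · linarith only [h_a2, h_a4, h_f13_0, h_o2, x_f13_2_1_1]
  · linarith only [h_a2, h_f12_0, h_o1, x_f12_2_1_1]

end Pool.Agent.Helper43.TQ
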