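import Pool.Agent.Helper89.TQ.Ctx

set_option autoImplicit false
set_option linter.all false
set_option maxHeartbeats 0

namespace Pool.Agent.Helper43.TQ

open Pool.Agent.Helper89.TQ

theorem c2_13_22_33_k3 {n1 n2 n3 A1 A2 A3 B1 B2 B3 m11_1 m11_2 m11_3 m12_1 m12_2 m12_3 m13_1 m13_2 m13_3 m22_1 m22_2 m22_3 m33_1 m33_2 m33_3 : ℤ}
    (C : Ctx2 n1 n2 n3 A1 A2 A3 B1 B2 B3 m11_1 m11_2 m11_3 m12_1 m12_2 m12_3 m13_1 m13_2 m13_3 m22_1 m22_2 m22_3 m33_1 m33_2 m33_3)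
    (e0 : 0 < A1)
    (e1 : 0 < B3)
    (e2 : 0 < A2)
    (e3 : 0 < A3)
    (s1 : 3 * A1 + 0 * B1 ≤ m13_1 + m22_1 + m33_1)
    (s2 : 3 * A2 + 0 * B2 ≤ m13_2 + m22_2 + m33_2)
    (s3 : 3 * A3 + 0 * B3 ≤ m13_3 + m22_3 + m33_3) : False := by
  have h_a1 := C.a1
  have h_a2 := C.a2
  have h_a4 := C.a4
  have h_b0 := C.b0
  have h_b3 := C.b3
  have h_b5 := C.b5
  have h_o0 := C.o0
  have h_o1 := C.o1
  have h_o2 := C.o2
  have h_f12_0 := C.f12_0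
  have h_f12_4 := C.f12_4
  have h_f12_6 := C.f12_6
  have h_f13_0 := C.f13_0
  have h_f13_3 := C.f13_3
  have h_f13_4 := C.f13_4
  have h_f13_7 := C.f13_7
  have h_f22_0 := C.f22_0
  have h_f22_1 := C.f22_1
  have h_f22_4 := C.f22_4
  have h_f22_6 := C.f22_6
  have h_f33_0 := C.f33_0
  have h_f33_1 := C.f33_1
  have h_f33_4 := C.f33_4
  have h_f33_7 := C.f33_7
  have d_f12_2 : (m12_1 + 1 ≤ A1 ∧ A1 ≤ m12_1 + 1) ∨ (m12_1 + 1 ≤ B2 ∧ B2 ≤ m12_1 + 1) := by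
    have := C.f12_2
    clear C
    omega
  have d_f12_5 : (m12_2 ≤ m12_1 + n2 ∧ m12_1 + n2 ≤ m12_2) ∨ (m12_2 + 1 ≤ B2 ∧ B2 ≤ m12_2 + 1) := by
    have := C.f12_5
    clear C
    omega
  have d_f13_2 : (m13_1 + 1 ≤ A1 ∧ A1 ≤ m13_1 + 1) ∨ (m13_1 + 1 ≤ B3 ∧ B3 ≤ m13_1 + 1) := by
    have := C.f13_2
    clear C
    omega
  have d_f13_5 : (m13_2 ≤ m13_1 + n2 ∧ m13_1 + n2 ≤ m13_2) ∨ (m13_2 + 1 ≤ B3 ∧ B3 ≤ m13_2 + 1) := by
    have := C.f13_5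
    clear C
    omega
  have d_f13_8 : (m13_3 ≤ m13_2 + n3 ∧ m13_2 + n3 ≤ m13_3) ∨ (m13_3 + 1 ≤ B3 ∧ B3 ≤ m13_3 + 1) := by
    have := C.f13_8
    clear C
    omega
  have d_f22_2 : (m22_1 ≤ n1 ∧ n1 ≤ m22_1) ∨ (m22_1 + 1 ≤ A2 ∧ A2 ≤ m22_1 + 1) := by
    have := C.f22_2
    clear C
    omega
  have d_f22_5 : (m22_2 ≤ m22_1 + n2 ∧ m22_1 + n2 ≤ m22_2) ∨ (m22_2 + 1 ≤ A2 ∧ A2 ≤ m22_2 + 1) := by
    have := C.f22_5
    clear C
    omega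
  have d_f33_2 : (m33_1 ≤ n1 ∧ n1 ≤ m33_1) ∨ (m33_1 + 1 ≤ A3 ∧ A3 ≤ m33_1 + 1) := by
    have := C.f33_2
    clear C
    omega
  have d_f33_5 : (m33_2 ≤ m33_1 + n2 ∧ m33_1 + n2 ≤ m33_2) ∨ (m33_2 + 1 ≤ A3 ∧ A3 ≤ m33_2 + 1) := by
    have := C.f33_5
    clear C
    omega
  have d_f33_8 : (m33_3 ≤ m33_2 + n3 ∧ m33_2 + n3 ≤ m33_3) ∨ (m33_3 + 1 ≤ A3 ∧ A3 ≤ m33_3 + 1) := by
    have := C.f33_8
    clear C
    omega
  have d_p12_22A : A1 ≤ 0 ∨ B2 ≤ 0 ∨ A2 ≤ 0 ∨ m12_1 + m22_1 + 1 ≤ 2 * A1 ∨ m12_2 + m22_2 + 1 ≤ 2 * A2 ∨ m12_3 + m22_3 + 1 ≤ 2 * A3 := by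
    have := C.p12_22A
    clear C
    omega
  have d_p12_33A : A1 ≤ 0 ∨ B2 ≤ 0 ∨ A3 ≤ 0 ∨ m12_1 + m33_1 + 1 ≤ 2 * A1 ∨ m12_2 + m33_2 + 1 ≤ 2 * A2 ∨ m12_3 + m33_3 + 1 ≤ 2 * A3 := by
    have := C.p12_33A
    clear C
    omega
  have d_p13_22A : A1 ≤ 0 ∨ B3 ≤ 0 ∨ A2 ≤ 0 ∨ m13_1 + m22_1 + 1 ≤ 2 * A1 ∨ m13_2 + m22_2 + 1 ≤ 2 * A2 ∨ m13_3 + m22_3 + 1 ≤ 2 * A3 := by
    have := C.p13_22A
    clear C
    omega
  clear C
  rcases d_f13_2 with ⟨x_f13_2_0_0, x_f13_2_0_1⟩ | ⟨x_f13_2_1_0, x_f13_2_1_1⟩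
  · rcases d_f12_2 with ⟨x_f12_2_0_0, x_f12_2_0_1⟩ | ⟨x_f12_2_1_0, x_f12_2_1_1⟩
    · rcases d_f13_5 with ⟨x_f13_5_0_0, x_f13_5_0_1⟩ | ⟨x_f13_5_1_0, x_f13_5_1_1⟩
      · rcases d_f33_5 with ⟨x_f33_5_0_0, x_f33_5_0_1⟩ | ⟨x_f33_5_1_0, x_f33_5_1_1⟩
        · rcases d_f12_5 with ⟨x_f12_5_0_0, x_f12_5_0_1⟩ | ⟨x_f12_5_1_0, x_f12_5_1_1⟩
          · linarith only [h_b3, h_f12_4, h_o0, x_f12_2_0_1, x_f12_5_0_1]
          · rcases d_f33_2 with ⟨x_f33_2_0_0, x_f33_2_0_1⟩ | ⟨x_f33_2_1_0, x_f33_2_1_1⟩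
            · rcases d_p12_33A with x_p12_33A_0_0 | x_p12_33A_1_0 | x_p12_33A_2_0 | x_p12_33A_3_0 | x_p12_33A_4_0 | x_p12_33A_5_0
              · linarith only [h_b0, h_o0, x_p12_33A_0_0]
              · linarith only [h_a2, h_b0, h_o0, h_o1, x_p12_33A_1_0]
              · linarith only [h_b0, h_b3, h_f13_0, h_f22_1, h_f33_4, h_o0, h_o1, s1, x_f33_5_0_1, x_p12_33A_2_0]
              · linarith only [h_f13_0, h_f22_0, s1, x_f12_2_0_1, x_f33_2_0_1, x_p12_33A_3_0]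
              · linarith only [h_b3, h_f13_0, h_f22_0, h_o0, h_o1, s1, x_f12_5_1_1, x_f33_2_0_1, x_f33_5_0_1, x_p12_33A_4_0]
              · rcases d_f33_8 with ⟨x_f33_8_0_0, x_f33_8_0_1⟩ | ⟨x_f33_8_1_0, x_f33_8_1_1⟩
                · linarith only [h_b3, h_b5, h_f12_6, h_f13_0, h_f13_7, h_f22_0, h_f22_4, h_f22_6, h_o0, h_o1, s1, s3, x_f12_5_1_1, x_f33_2_0_1, x_f33_5_0_1, x_f33_8_0_1, x_p12_33A_5_0]
                · linarith only [h_b5, h_f12_6, h_f13_7, h_f22_4, h_f22_6, h_o1, s3, x_f12_5_1_1, x_f33_8_1_1, x_p12_33A_5_0]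
            · linarith only [h_a2, h_b3, h_f33_4, h_o0, h_o1, x_f33_2_1_1, x_f33_5_0_1]
        · rcases d_f33_8 with ⟨x_f33_8_0_0, x_f33_8_0_1⟩ | ⟨x_f33_8_1_0, x_f33_8_1_1⟩
          · linarith only [h_b3, h_b5, h_f13_4, h_f33_7, h_o0, x_f13_2_0_1, x_f13_5_0_1, x_f33_5_1_1, x_f33_8_0_1]
          · rcases d_f12_5 with ⟨x_f12_5_0_0, x_f12_5_0_1⟩ | ⟨x_f12_5_1_0, x_f12_5_1_1⟩
            · linarith only [h_b3, h_f12_4, h_o0, x_f12_2_0_1, x_f12_5_0_1]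
            · rcases d_f33_2 with ⟨x_f33_2_0_0, x_f33_2_0_1⟩ | ⟨x_f33_2_1_0, x_f33_2_1_1⟩
              · rcases d_p12_33A with x_p12_33A_0_0 | x_p12_33A_1_0 | x_p12_33A_2_0 | x_p12_33A_3_0 | x_p12_33A_4_0 | x_p12_33A_5_0
                · linarith only [h_b0, h_o0, x_p12_33A_0_0]
                · linarith only [h_a2, h_b0, h_o0, h_o1, x_p12_33A_1_0]
                · linarith only [h_a1, h_b0, h_f33_1, h_o0, x_f33_2_0_1, x_p12_33A_2_0]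
                · linarith only [h_f13_0, h_f22_0, s1, x_f12_2_0_1, x_f33_2_0_1, x_p12_33A_3_0]
                · rcases d_f13_8 with ⟨x_f13_8_0_0, x_f13_8_0_1⟩ | ⟨x_f13_8_1_0, x_f13_8_1_1⟩
                  · linarith only [h_b5, h_f13_7, h_f22_4, s2, x_f12_5_1_1, x_f13_8_0_1, x_p12_33A_4_0]
                  · rcases d_p13_22A with x_p13_22A_0_0 | x_p13_22A_1_0 | x_p13_22A_2_0 | x_p13_22A_3_0 | x_p13_22A_4_0 | x_p13_22A_5_0
                    · linarith only [h_b0, h_o0, x_p13_22A_0_0]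
                    · linarith only [h_a1, h_b0, h_f13_4, h_f22_4, h_f33_1, h_o0, h_o1, s2, x_f12_5_1_1, x_f33_2_0_1, x_f33_5_1_1, x_p12_33A_4_0, x_p13_22A_1_0]
                    · linarith only [h_a1, h_b0, h_f33_1, h_o0, h_o1, x_f12_5_1_1, x_f33_2_0_1, x_f33_5_1_1, x_p12_33A_4_0, x_p13_22A_2_0]
                    · rcases d_f22_2 with ⟨x_f22_2_0_0, x_f22_2_0_1⟩ | ⟨x_f22_2_1_0, x_f22_2_1_1⟩
                      · linarith only [h_f33_0, s1, x_f13_2_0_1, x_f22_2_0_1, x_p13_22A_3_0]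
                      · linarith only [h_f33_1, h_o1, s1, x_f12_5_1_1, x_f13_2_0_1, x_f22_2_1_1, x_f33_5_1_1, x_p12_33A_4_0, x_p13_22A_3_0]
                    · linarith only [h_o1, s2, x_f12_5_1_1, x_p12_33A_4_0, x_p13_22A_4_0]
                    · linarith only [h_b5, h_f13_4, h_f22_4, h_f22_6, h_o1, s2, x_f12_5_1_1, x_f13_8_1_1, x_f33_5_1_1, x_p12_33A_4_0, x_p13_22A_5_0]
                · linarith only [h_b5, h_f12_6, h_f13_7, h_f22_4, h_f22_6, h_o1, s3, x_f12_5_1_1, x_f33_8_1_1, x_p12_33A_5_0]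
              · rcases d_p12_33A with x_p12_33A_0_0 | x_p12_33A_1_0 | x_p12_33A_2_0 | x_p12_33A_3_0 | x_p12_33A_4_0 | x_p12_33A_5_0
                · linarith only [h_b0, h_o0, x_p12_33A_0_0]
                · linarith only [h_a2, h_b0, h_o0, h_o1, x_p12_33A_1_0]
                · linarith only [h_a2, h_a4, h_b0, h_o0, x_p12_33A_2_0]
                · linarith only [h_a4, h_f13_0, h_f22_1, s1, x_f12_2_0_1, x_f33_2_1_1, x_p12_33A_3_0]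
                · rcases d_f13_8 with ⟨x_f13_8_0_0, x_f13_8_0_1⟩ | ⟨x_f13_8_1_0, x_f13_8_1_1⟩
                  · linarith only [h_b5, h_f13_7, h_f22_4, s2, x_f12_5_1_1, x_f13_8_0_1, x_p12_33A_4_0]
                  · rcases d_p13_22A with x_p13_22A_0_0 | x_p13_22A_1_0 | x_p13_22A_2_0 | x_p13_22A_3_0 | x_p13_22A_4_0 | x_p13_22A_5_0
                    · linarith only [h_b0, h_o0, x_p13_22A_0_0]
                    · linarith only [h_a2, h_b0, h_f13_4, h_f22_4, h_o0, h_o1, s2, x_f12_5_1_1, x_p12_33A_4_0, x_p13_22A_1_0]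
                    · linarith only [h_a2, h_b0, h_o0, x_p13_22A_2_0]
                    · rcases d_f22_2 with ⟨x_f22_2_0_0, x_f22_2_0_1⟩ | ⟨x_f22_2_1_0, x_f22_2_1_1⟩
                      · linarith only [h_f33_0, s1, x_f13_2_0_1, x_f22_2_0_1, x_p13_22A_3_0]
                      · linarith only [h_f33_1, h_o1, s1, x_f12_5_1_1, x_f13_2_0_1, x_f22_2_1_1, x_f33_5_1_1, x_p12_33A_4_0, x_p13_22A_3_0]
                    · linarith only [h_o1, s2, x_f12_5_1_1, x_p12_33A_4_0, x_p13_22A_4_0]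
                    · linarith only [h_b5, h_f13_4, h_f22_4, h_f22_6, h_o1, s2, x_f12_5_1_1, x_f13_8_1_1, x_f33_5_1_1, x_p12_33A_4_0, x_p13_22A_5_0]
                · linarith only [h_b5, h_f12_6, h_f13_7, h_f22_4, h_f22_6, h_o1, s3, x_f12_5_1_1, x_f33_8_1_1, x_p12_33A_5_0]
      · rcases d_f12_5 with ⟨x_f12_5_0_0, x_f12_5_0_1⟩ | ⟨x_f12_5_1_0, x_f12_5_1_1⟩
        · linarith only [h_b3, h_f12_4, h_o0, x_f12_2_0_1, x_f12_5_0_1]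
        · rcases d_f22_2 with ⟨x_f22_2_0_0, x_f22_2_0_1⟩ | ⟨x_f22_2_1_0, x_f22_2_1_1⟩
          · rcases d_p12_22A with x_p12_22A_0_0 | x_p12_22A_1_0 | x_p12_22A_2_0 | x_p12_22A_3_0 | x_p12_22A_4_0 | x_p12_22A_5_0
            · linarith only [h_b0, h_o0, x_p12_22A_0_0]
            · linarith only [h_b0, h_f13_0, h_f22_1, h_f33_0, h_o0, h_o1, s1, x_f22_2_0_1, x_p12_22A_1_0]
            · linarith only [h_b0, h_f13_0, h_f22_1, h_f33_0, h_o0, s1, x_f22_2_0_1, x_p12_22A_2_0]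
            · linarith only [h_f13_0, h_f33_0, s1, x_f12_2_0_1, x_f22_2_0_1, x_p12_22A_3_0]
            · rcases d_p13_22A with x_p13_22A_0_0 | x_p13_22A_1_0 | x_p13_22A_2_0 | x_p13_22A_3_0 | x_p13_22A_4_0 | x_p13_22A_5_0
              · linarith only [h_b0, h_o0, x_p13_22A_0_0]
              · linarith only [h_a1, h_a4, h_b0, h_f22_1, h_o0, h_o2, x_f22_2_0_1, x_p13_22A_1_0]
              · linarith only [h_b0, h_f13_0, h_f22_1, h_f33_0, h_o0, s1, x_f22_2_0_1, x_p13_22A_2_0]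
              · linarith only [h_f33_0, s1, x_f13_2_0_1, x_f22_2_0_1, x_p13_22A_3_0]
              · rcases d_f22_5 with ⟨x_f22_5_0_0, x_f22_5_0_1⟩ | ⟨x_f22_5_1_0, x_f22_5_1_1⟩
                · linarith only [h_f13_0, h_f13_3, h_f33_0, h_f33_4, h_o2, s1, s2, x_f13_5_1_1, x_f22_2_0_1, x_f22_5_0_1, x_p13_22A_4_0]
                · linarith only [h_f33_4, h_o2, s2, x_f13_5_1_1, x_f22_5_1_1, x_p13_22A_4_0]
              · linarith only [h_f33_7, s3, x_p13_22A_5_0]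
            · linarith only [h_b5, h_f12_6, h_f13_7, h_f33_7, s3, x_f12_5_1_1, x_p12_22A_5_0]
          · rcases d_f22_5 with ⟨x_f22_5_0_0, x_f22_5_0_1⟩ | ⟨x_f22_5_1_0, x_f22_5_1_1⟩
            · linarith only [h_a2, h_b3, h_f22_4, h_o0, h_o1, x_f22_2_1_1, x_f22_5_0_1]
            · rcases d_p13_22A with x_p13_22A_0_0 | x_p13_22A_1_0 | x_p13_22A_2_0 | x_p13_22A_3_0 | x_p13_22A_4_0 | x_p13_22A_5_0
              · linarith only [h_b0, h_o0, x_p13_22A_0_0]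
              · linarith only [h_a2, h_a4, h_b0, h_o0, h_o2, x_p13_22A_1_0]
              · linarith only [h_a2, h_b0, h_o0, x_p13_22A_2_0]
              · rcases d_p12_33A with x_p12_33A_0_0 | x_p12_33A_1_0 | x_p12_33A_2_0 | x_p12_33A_3_0 | x_p12_33A_4_0 | x_p12_33A_5_0
                · linarith only [h_b0, h_o0, x_p12_33A_0_0]
                · linarith only [h_a2, h_b0, h_o0, h_o1, x_p12_33A_1_0]
                · linarith only [h_a4, h_b0, h_f13_0, h_f22_1, h_f33_1, h_o0, s1, x_p12_33A_2_0]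
                · linarith only [s1, x_f12_2_0_1, x_p12_33A_3_0, x_p13_22A_3_0]
                · rcases d_f33_5 with ⟨x_f33_5_0_0, x_f33_5_0_1⟩ | ⟨x_f33_5_1_0, x_f33_5_1_1⟩
                  · linarith only [h_a2, h_f13_3, h_f22_4, h_o1, s1, s2, x_f12_5_1_1, x_f22_2_1_1, x_f33_5_0_1, x_p12_33A_4_0, x_p13_22A_3_0]
                  · linarith only [h_f33_1, h_o1, s1, x_f12_5_1_1, x_f13_2_0_1, x_f22_2_1_1, x_f33_5_1_1, x_p12_33A_4_0, x_p13_22A_3_0]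
                · rcases d_f33_5 with ⟨x_f33_5_0_0, x_f33_5_0_1⟩ | ⟨x_f33_5_1_0, x_f33_5_1_1⟩
                  · linarith only [h_f12_6, h_f13_0, h_f13_3, h_f13_7, h_f22_4, h_f22_6, h_f33_4, h_o1, s1, s3, x_f12_5_1_1, x_f13_5_1_1, x_f33_5_0_1, x_p12_33A_5_0, x_p13_22A_3_0]
                  · rcases d_f33_8 with ⟨x_f33_8_0_0, x_f33_8_0_1⟩ | ⟨x_f33_8_1_0, x_f33_8_1_1⟩
                    · linarith only [h_b5, h_f12_6, h_f13_7, h_f22_4, h_f22_6, h_f33_1, h_o1, s1, s3, x_f12_5_1_1, x_f13_2_0_1, x_f22_2_1_1, x_f33_5_1_1, x_f33_8_0_1, x_p12_33A_5_0, x_p13_22A_3_0]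
                    · linarith only [h_b5, h_f12_6, h_f13_7, h_f22_4, h_f22_6, h_o1, s3, x_f12_5_1_1, x_f33_8_1_1, x_p12_33A_5_0]
              · linarith only [h_f33_4, h_o2, s2, x_f13_5_1_1, x_f22_5_1_1, x_p13_22A_4_0]
              · linarith only [h_f33_7, s3, x_p13_22A_5_0]
    · linarith only [h_a2, h_f12_0, h_o1, x_f12_2_1_1]
  · linarith only [h_a2, h_a4, h_f13_0, h_o2, x_f13_2_1_1]

end Pool.Agent.Helper43.TQ
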